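import Pool.Agent.Helper43.Fr.PL

/-!
# Existence of the curves from computable integer data
-/

namespace Pool.Agent.Helper43.Fr

open PL
open scoped PowerSeries Polynomial

/-- integer data of a curve -/
structure Dat where
  N : ℕ
  w : ℕ
  k : ℕ
  j : ℕ
  q : List ℤ
  c0 : List ℤ
  c1 : List ℤ
  c2 : List ℤ
  al : List ℤ
  be : List ℤ
  ga : List ℤ
  ln : List ℤ
  ar : List ℤ
  br : List ℤ
  dr : List ℤ

namespace Dat

/-- `x0 = 2 t^k dr ar` -/
def x0 (D : Dat) : List ℤ := sh D.k (sm 2 (mul D.dr D.ar))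
/-- `x1 = - 2 t^k dr br` -/
def x1 (D : Dat) : List ℤ := sh D.k (sm (-2) (mul D.dr D.br))

/-- multiplication of pairs `a + b V` -/
def pm (D : Dat) (a b : List ℤ × List ℤ) : List ℤ × List ℤ :=
  (add (mul a.1 b.1) (mul D.q (mul a.2 b.2)), add (mul a.1 b.2) (mul a.2 b.1))

/-- all checks except the differential equation -/
def ok1 (D : Dat) : Bool :=
  (hd D.q == 1) && (hd D.al == 2) && (hd D.be == 2) && (hd D.ga == 2) && (hd D.c2 == 2)
    && (hd D.dr == 1) && (hd D.ar - hd D.br == 2) && (hd D.c0 + hd D.c1 == 2)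
    && (decide (0 < D.k)) && (decide (0 < D.j)) && (decide (0 < D.w))
    && eqv (sub (mul D.c0 D.c0) (mul D.q (mul D.c1 D.c1))) (sm ((D.N : ℤ) ^ 2) (mul D.al D.al))
    && eqv (mul (mul D.be D.be) (mul D.al D.al))
        (add (sub (mul (mul D.al D.al) (mul D.al D.al)) (sm 64 (mul (mul D.al D.al) D.x0)))
          (sm 1024 (sub (mul D.x0 D.x0) (mul D.q (mul D.x1 D.x1)))))
    && eqv (mul (mul D.ga D.ga) (mul D.al D.al))
        (add (add (mul (mul D.al D.al) (mul D.al D.al)) (sm 8 (mul (mul D.al D.al) D.x0)))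
          (sm 16 (sub (mul D.x0 D.x0) (mul D.q (mul D.x1 D.x1)))))
    && eqv (mul D.al (add (sm 2 (mul D.q (thl D.c1))) (mul D.c1 (thl D.q))))
        (add (sm 2 (mul D.ln D.c0)) (sm 2 (mul D.q (mul D.c1 (thl D.al)))))
    && eqv (sub (sm 2 (mul D.al (thl D.c0))) (sm 2 (mul D.c0 (thl D.al))))
        (sm 2 (mul D.ln D.c1))
    && eqv (sh D.j (mul D.al D.al)) (sh D.k (sub (mul D.ar D.ar) (mul D.q (mul D.br D.br))))

/-- `j dr + th dr` -/
def jd (D : Dat) : List ℤ := add (sm (D.j : ℤ) D.dr) (thl D.dr)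

/-- `Y = 2 q (j dr + th dr) (ar + br V) - dr (2 q th ar + 2 q th br V + br th q V)` -/
def Y (D : Dat) : List ℤ × List ℤ :=
  (sub (sm 2 (mul D.q (mul D.jd D.ar))) (sm 2 (mul D.dr (mul D.q (thl D.ar)))),
   sub (sm 2 (mul D.q (mul D.jd D.br)))
    (mul D.dr (add (sm 2 (mul D.q (thl D.br))) (mul D.br (thl D.q)))))

/-- right hand side of the differential equation -/
def rhs (D : Dat) : List ℤ × List ℤ :=
  let W := sm (4 * (D.w : ℤ)) (mul D.q (mul D.dr D.dr))
  D.pm (W, [])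
    (D.pm (D.c0, D.c1)
      (D.pm (sub D.ar (sm 64 (sh D.j D.dr)), D.br) (add D.ar (sm 8 (sh D.j D.dr)), D.br)))

/-- differential equation -/
def ok2 (D : Dat) : Bool :=
  let L := D.pm (D.c2, []) (D.pm D.Y D.Y)
  eqv L.1 D.rhs.1 && eqv L.2 D.rhs.2

/-- `G X' (al² + 12 X')` -/
def O (D : Dat) : List ℤ × List ℤ :=
  D.pm (D.c0, D.c1) (D.pm (D.x0, D.x1)
    (add (mul D.al D.al) (sm 12 D.x0), sm 12 D.x1))

/-- the equation (S') -/
def ok3 (D : Dat) : Bool :=
  eqv (mul (mul D.al D.al)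
    (add (sub (sm 2 (mul (thl D.ln) (mul D.al D.c2))) (sm 3 (mul D.ln (mul (thl D.al) D.c2))))
      (mul D.ln (mul (thl D.c2) D.al))))
    (sm (16 * (D.w : ℤ)) D.O.2)

end Dat

/-- the curve of level 2 -/
def D2 : Dat where
  N := 2
  w := 4
  k := 2
  j := 4
  q := [1, 0, -16]
  c0 := [5, 0, -32, 0, 32]
  c1 := [-3, 0, 8]
  c2 := [2, 0, -8]
  al := [2, 0, -8, 0, 16]
  be := [2, 0, -40, 0, -16]
  ga := [2, 0, -4, 0, -16]
  ln := [0, 0, 16, 0, 64]
  ar := [1, 0, -11, 0, 20]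
  br := [-1, 0, 5, 0, -4]
  dr := [1]

lemma D2_ok1 : D2.ok1 = true := by decide +kernel
lemma D2_ok2 : D2.ok2 = true := by decide +kernel
lemma D2_ok3 : D2.ok3 = true := by decide +kernel

/-- the curve of level 3 -/
def D3 : Dat where
  N := 3
  w := 1
  k := 1
  j := 3
  q := [1, 0, -36]
  c0 := [10, 68, 96]
  c1 := [-8, -40, -48]
  c2 := [2, 16, 42, 36]
  al := [2, 20, 80, 96]
  be := [2, -12, -144, -288]
  ga := [2, 24, 72, 72]
  ln := [0, 8, 112, 192]
  ar := [1, 6, -8, -80, -96]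
  br := [-1, -6, -8]
  dr := [1, 3]

lemma D3_ok1 : D3.ok1 = true := by decide +kernel
lemma D3_ok2 : D3.ok2 = true := by decide +kernel
lemma D3_ok3 : D3.ok3 = true := by decide +kernel

/-- the curve of level 5 -/
def D5 : Dat where
  N := 5
  w := 1
  k := 1
  j := 5
  q := [1, -6, -7, 48, -36]
  c0 := [26, -44, -160, 128]
  c1 := [-24, -16]
  c2 := [2, 4]
  al := [2, 4, 16, -32]
  be := [2, -28, -16, 96]
  ga := [2, 8, -16, 24]
  ln := [0, 8, 56, -176, 192]
  ar := [1, -5, -10, 40, 16, -32]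
  br := [-1, 2, 8]
  dr := [1]

lemma D5_ok1 : D5.ok1 = true := by decide +kernel
lemma D5_ok2 : D5.ok2 = true := by decide +kernel
lemma D5_ok3 : D5.ok3 = true := by decide +kernel

/-- the curve of level 7 -/
def D7 : Dat where
  N := 7
  w := 1
  k := 1
  j := 7
  q := [1, -2, -11, -16, -20]
  c0 := [50, -142, -60, 96, 64]
  c1 := [-48, 104, -48]
  c2 := [2, -6, 4]
  al := [2, 2, 20, -48, 32]
  be := [2, -30, 20, 48, 32]
  ga := [2, 6, -16, 48, -40]
  ln := [0, 8, 64, -88, 144, 128]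
  ar := [1, -7, 7, 21, -14, 0, -48, 32]
  br := [-1, 6, -7, -6, 8]
  dr := [1]

lemma D7_ok1 : D7.ok1 = true := by decide +kernel
lemma D7_ok2 : D7.ok2 = true := by decide +kernel
lemma D7_ok3 : D7.ok3 = true := by decide +kernel

/-- the curve of level 13 -/
def D13 : Dat where
  N := 13
  w := 1
  k := 1
  j := 13
  q := [1, 8, 20, -2, -92, -132, -19, 60, -12]
  c0 := [170, 1368, 4022, 4380, -1426, -5872, -1950, 1100]
  c1 := [-168, -664, -760, -200]
  c2 := [2, 4]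
  al := [2, 24, 142, 428, 678, 528, 90, -100]
  be := [2, -8, -146, -532, -762, -336, 90, -36]
  ga := [2, 28, 142, 404, 678, 564, 90, -108]
  ln := [0, 8, 160, 1056, 3624, 7448, 9024, 4704, -1448, -1760, 480]
  ar := [1, 13, 65, 130, -78, -858, -1352, 156, 2639, 2353, -273, -1014, -90, 100]
  br := [-1, -9, -27, -13, 91, 169, 27, -147, -90]
  dr := [1]

lemma D13_ok1 : D13.ok1 = true := by decide +kernel
lemma D13_ok2 : D13.ok2 = true := by decide +kernel
lemma D13_ok3 : D13.ok3 = true := by decide +kernel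

end Pool.Agent.Helper43.Fr
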