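import Mathlib

/-!
# Franel number supercongruences (MP_c866d3_nt): definitions

`aa n = C(2n,n) f_n`, `f_n` the Franel numbers.
-/

namespace Pool.Agent.Helper43.Fr

open scoped PowerSeries Polynomial

/-- Franel numbers `f_n = ∑_k C(n,k)^3`. -/
def franel (n : ℕ) : ℕ := ∑ k ∈ Finset.range (n + 1), (n.choose k) ^ 3

/-- `a_n = C(2n,n) f_n`. -/
def aa (n : ℕ) : ℕ := (2 * n).choose n * franel n

/-- first coefficient of the recursion `n^3 a_n = q1(n) a_{n-1} + q2(n) a_{n-2}` -/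
def q1 (n : ℤ) : ℤ := 2 * (2 * n - 1) * (7 * n ^ 2 - 7 * n + 2)

/-- second coefficient of the recursion -/
def q2 (n : ℤ) : ℤ := 32 * (n - 1) * (2 * n - 3) * (2 * n - 1)

noncomputable section

/-- generating series `F = ∑ a_n X^n` -/
def FF (R : Type*) [CommRing R] : R⟦X⟧ := PowerSeries.mk fun n => (aa n : R)

/-- truncated generating polynomial `F_1 = ∑_{n<p} a_n X^n` -/
def F1 (R : Type*) [CommRing R] (p : ℕ) : R[X] :=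
  ∑ n ∈ Finset.range p, Polynomial.monomial n (aa n : R)

/-- the derivation `θ = X d/dX` of power series -/
def th {R : Type*} [CommRing R] : Derivation R R⟦X⟧ R⟦X⟧ :=
  (PowerSeries.X : R⟦X⟧) • PowerSeries.derivative R

/-- the derivation `θ = X d/dX` of polynomials -/
def thP {R : Type*} [CommRing R] : Derivation R R[X] R[X] :=
  (Polynomial.X : R[X]) • Polynomial.derivative'

/-- `D(x) = 1 - 28 x - 128 x^2 = (1-32x)(1+4x)` for an element of a ring -/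
def DD {S : Type*} [CommRing S] (x : S) : S := 1 - 28 * x - 128 * x ^ 2

/-- The third order operator
`L = D θ³ - (42X+384X²) θ² - (22X+352X²) θ - (4X+96X²)` on polynomials. -/
def Lop {R : Type*} [CommRing R] (f : R[X]) : R[X] :=
  DD Polynomial.X * thP (thP (thP f))
    - (42 * Polynomial.X + 384 * Polynomial.X ^ 2) * thP (thP f)
    - (22 * Polynomial.X + 352 * Polynomial.X ^ 2) * thP f
    - (4 * Polynomial.X + 96 * Polynomial.X ^ 2) * f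

/-- The derivative `L' = ∂L/∂θ = 3 D θ² - 2 (42X+384X²) θ - (22X+352X²)`. -/
def Lop' {R : Type*} [CommRing R] (f : R[X]) : R[X] :=
  3 * DD Polynomial.X * thP (thP f)
    - 2 * (42 * Polynomial.X + 384 * Polynomial.X ^ 2) * thP f
    - (22 * Polynomial.X + 352 * Polynomial.X ^ 2) * f

/-- The data of a curve `V² = q(t)` with two functions `x, y` (conjugate under `V ↦ -V`) such that
`F(x) = M F(y)`. Everything lives over `ℤ_[p]`; polynomials in `t` are coerced to power series. -/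
structure Cur (p : ℕ) [Fact p.Prime] where
  N : ℕ
  w : ℕ
  q : ℤ_[p][X]
  x0 : ℤ_[p][X]
  x1 : ℤ_[p][X]
  c0 : ℤ_[p][X]
  c1 : ℤ_[p][X]
  c2 : ℤ_[p][X]
  al : ℤ_[p][X]
  be : ℤ_[p][X]
  ga : ℤ_[p][X]
  ln : ℤ_[p][X]
  V : ℤ_[p]⟦X⟧
  x : ℤ_[p]⟦X⟧
  y : ℤ_[p]⟦X⟧
  M : ℤ_[p]⟦X⟧
  M' : ℤ_[p]⟦X⟧
  ψ : ℤ_[p]⟦X⟧
  lam : ℤ_[p]⟦X⟧
  lps : ℤ_[p]⟦X⟧
  rx : ℤ_[p]⟦X⟧
  ry : ℤ_[p]⟦X⟧
  hN : ¬ p ∣ N
  hw : ¬ p ∣ w
  hV : V ^ 2 = (q : ℤ_[p]⟦X⟧)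
  hV0 : PowerSeries.constantCoeff V = 1
  hxc : PowerSeries.constantCoeff x = 0
  hyc : PowerSeries.constantCoeff y = 0
  hxne : x ≠ 0
  hyne : y ≠ 0
  hM0 : PowerSeries.constantCoeff M = 1
  hal0 : IsUnit (al.coeff 0)
  hbe0 : be.coeff 0 = al.coeff 0
  hga0 : ga.coeff 0 = al.coeff 0
  hψ0 : IsUnit (PowerSeries.constantCoeff ψ)
  hMM : M * M' = (N : ℤ_[p]⟦X⟧) ^ 2
  hx : (al : ℤ_[p]⟦X⟧) ^ 2 * x = (x0 : ℤ_[p]⟦X⟧) + (x1 : ℤ_[p]⟦X⟧) * V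
  hy : (al : ℤ_[p]⟦X⟧) ^ 2 * y = (x0 : ℤ_[p]⟦X⟧) - (x1 : ℤ_[p]⟦X⟧) * V
  hM : (al : ℤ_[p]⟦X⟧) * M = (c0 : ℤ_[p]⟦X⟧) + (c1 : ℤ_[p]⟦X⟧) * V
  hM' : (al : ℤ_[p]⟦X⟧) * M' = (c0 : ℤ_[p]⟦X⟧) - (c1 : ℤ_[p]⟦X⟧) * V
  hψ : (q : ℤ_[p]⟦X⟧) * (c2 : ℤ_[p]⟦X⟧) * ψ = (w : ℤ_[p]⟦X⟧) * (al : ℤ_[p]⟦X⟧)
  hrx : th x = rx * x
  hry : th y = ry * y
  hrx2 : rx ^ 2 = ψ * M * DD x
  hry2 : ry ^ 2 = ψ * M' * DD y
  hlam : th M = lam * M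
  hlps : th ψ = lps * ψ
  hS : 2 * th lam - lps * lam
      = 8 * ψ * (M * x * (1 + 12 * x) - M' * y * (1 + 12 * y))
  hln : (al : ℤ_[p]⟦X⟧) * V * lam = (ln : ℤ_[p]⟦X⟧)
  hlnE : al * (2 * q * thP c1 + c1 * thP q) = 2 * ln * c0 + 2 * q * c1 * thP al
  hnorm : c0 ^ 2 - q * c1 ^ 2 = (N : ℤ_[p][X]) ^ 2 * al ^ 2
  hbe : be ^ 2 * al ^ 2 = al ^ 4 - 64 * al ^ 2 * x0 + 1024 * (x0 ^ 2 - q * x1 ^ 2)
  hga : ga ^ 2 * al ^ 2 = al ^ 4 + 8 * al ^ 2 * x0 + 16 * (x0 ^ 2 - q * x1 ^ 2)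

end

end Pool.Agent.Helper43.Fr
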