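import Pool.Agent.Helper43.Fr.Mk2

/-!
# Final step: from the curve at a fixed point to the supercongruence
-/

namespace Pool.Agent.Helper43.Fr

open PL
open scoped PowerSeries Polynomial

/-- a fixed point `t0 = 1/T` of the curve with `x(t0) = 1/m` and the numerical data there -/
structure Pt where
  T : ℤ
  m : ℤ
  a : ℤ
  b : ℤ
  M : ℤ
  s1 : ℤ
  s2 : ℤ
  n : ℤ
  d : ℤ

/-- the checks -/
def Pt.ok (D : Dat) (Q : Pt) : Bool :=
  (hv Q.T D.q == 0)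
    && (hv Q.T D.c0 * Q.T ^ D.al.length == Q.M * hv Q.T D.al * Q.T ^ D.c0.length)
    && (Q.m * hv Q.T D.x0 * Q.T ^ (2 * D.al.length) == (hv Q.T D.al) ^ 2 * Q.T ^ D.x0.length)
    && (Q.m * hv Q.T D.be * Q.T ^ D.al.length
        == Q.s1 * (Q.m - 32) * hv Q.T D.al * Q.T ^ D.be.length)
    && (Q.m * hv Q.T D.ga * Q.T ^ D.al.length
        == Q.s2 * (Q.m + 4) * hv Q.T D.al * Q.T ^ D.ga.length)
    && (Q.d * hv Q.T D.c2 * Q.T ^ D.c0.length == Q.n * D.w * hv Q.T D.c0 * Q.T ^ D.c2.length)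
    && (Q.a * hv Q.T D.al * hv Q.T D.ln * Q.T ^ ((thl D.q).length + D.x1.length)
        == -Q.b * Q.m * hv Q.T (thl D.q) * hv Q.T D.x1 * Q.T ^ (D.al.length + D.ln.length))
    && (Q.s1 ^ 2 == 1) && (Q.s2 ^ 2 == 1)

def Q50 : Pt := ⟨4, 50, 9, 2, 2, -1, 1, 3, 25⟩
def Q96 : Pt := ⟨6, 96, 5, 1, 3, -1, 1, 1, 4⟩
def Q320 : Pt := ⟨6, 320, 6, 1, 5, -1, 1, 9, 50⟩
def Q16 : Pt := ⟨2, 16, 5, 2, -5, 1, 1, -1, 5⟩
def Q5 : Pt := ⟨1, 5, 9, 4, 5, 1, -1, -3, 25⟩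
def Q896 : Pt := ⟨5, 896, 90, 13, 7, -1, 1, 75, 1568⟩
def Q10400 : Pt := ⟨2, 10400, 102, 11, 13, -1, 1, 8, 4225⟩

lemma Q50_ok : Q50.ok D2 = true := by decide +kernel
lemma Q96_ok : Q96.ok D3 = true := by decide +kernel
lemma Q320_ok : Q320.ok D5 = true := by decide +kernel
lemma Q16_ok : Q16.ok D5 = true := by decide +kernel
lemma Q5_ok : Q5.ok D5 = true := by decide +kernel
lemma Q896_ok : Q896.ok D7 = true := by decide +kernel
lemma Q10400_ok : Q10400.ok D13 = true := by decide +kernel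


noncomputable section

variable {p : ℕ} [Fact p.Prime]

lemma isUnit_intCast {z : ℤ} (h : ¬ (p : ℤ) ∣ z) : IsUnit (z : ℤ_[p]) := by
  rw [PadicInt.isUnit_iff]
  have := PadicInt.norm_int_lt_one_iff_dvd (p := p) z
  have h1 := PadicInt.norm_le_one (z : ℤ_[p])
  rcases lt_or_eq_of_le h1 with h2 | h2
  · exfalso
    exact h (this.1 h2)
  · exact h2

/-- comparison of two monomial expressions -/
lemma cancel_T {T : ℤ} {t : ℤ_[p]} (hT : (T : ℤ_[p]) * t = 1) {a b : ℤ_[p]} {n : ℕ}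
    (h : (T : ℤ_[p]) ^ n * a = (T : ℤ_[p]) ^ n * b) : a = b := by
  have h1 : t ^ n * (T : ℤ_[p]) ^ n = 1 := by rw [← mul_pow, mul_comm t, hT, one_pow]
  calc a = t ^ n * (T : ℤ_[p]) ^ n * a := by rw [h1, one_mul]
    _ = t ^ n * (T : ℤ_[p]) ^ n * b := by rw [mul_assoc, h, ← mul_assoc]
    _ = b := by rw [h1, one_mul]

lemma isUnit_of_hv {T : ℤ} {t : ℤ_[p]} (hT : (T : ℤ_[p]) * t = 1) {l : List ℤ}
    (h : ¬ (p : ℤ) ∣ hv T l) : IsUnit ((P ℤ_[p] l).eval t) := by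
  have h1 := isUnit_intCast (p := p) h
  rw [← P_eval T t hT l] at h1
  exact isUnit_of_mul_isUnit_right h1

/-- the values at the fixed point -/
structure Vals (D : Dat) (Q : Pt) (C : Cur p) (t ξ : ℤ_[p]) : Prop where
  q : C.q.eval t = 0
  c0 : C.c0.eval t = Q.M * C.al.eval t
  x0 : C.x0.eval t = (C.al.eval t) ^ 2 * ξ
  be : C.be.eval t = Q.s1 * (C.al.eval t * (1 - 32 * ξ))
  ga : C.ga.eval t = Q.s2 * (C.al.eval t * (1 + 4 * ξ))
  c2 : Q.d * C.c2.eval t = Q.n * (C.w * C.c0.eval t)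
  r : Q.a * (C.al.eval t) * C.ln.eval t * ξ = -Q.b * ((thP C.q).eval t * C.x1.eval t)

theorem vals (D : Dat) (Q : Pt) (hQ : Q.ok D = true) (C : Cur p)
    (hw : C.w = D.w) (hq : C.q = P _ D.q) (hx0 : C.x0 = P _ D.x0) (hx1 : C.x1 = P _ D.x1)
    (hc0 : C.c0 = P _ D.c0) (hc2 : C.c2 = P _ D.c2) (hal : C.al = P _ D.al)
    (hbe : C.be = P _ D.be) (hga : C.ga = P _ D.ga) (hln : C.ln = P _ D.ln)
    (t ξ : ℤ_[p]) (ht : (Q.T : ℤ_[p]) * t = 1) (hξ : (Q.m : ℤ_[p]) * ξ = 1) :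
    Vals D Q C t ξ := by
  simp only [Pt.ok, Bool.and_eq_true, beq_iff_eq] at hQ
  obtain ⟨⟨⟨⟨⟨⟨⟨⟨k1, k2⟩, k3⟩, k4⟩, k5⟩, k6⟩, k7⟩, k8⟩, k9⟩ := hQ
  have eq := P_eval Q.T t ht D.q
  have ec0 := P_eval Q.T t ht D.c0
  have ec2 := P_eval Q.T t ht D.c2
  have eal := P_eval Q.T t ht D.al
  have ebe := P_eval Q.T t ht D.be
  have ega := P_eval Q.T t ht D.ga
  have eln := P_eval Q.T t ht D.ln
  have ex0 := P_eval Q.T t ht D.x0
  have ex1 := P_eval Q.T t ht D.x1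
  have etq := P_eval Q.T t ht (thl D.q)
  have k2' := congrArg (Int.cast : ℤ → ℤ_[p]) k2
  have k3' := congrArg (Int.cast : ℤ → ℤ_[p]) k3
  have k4' := congrArg (Int.cast : ℤ → ℤ_[p]) k4
  have k5' := congrArg (Int.cast : ℤ → ℤ_[p]) k5
  have k6' := congrArg (Int.cast : ℤ → ℤ_[p]) k6
  have k7' := congrArg (Int.cast : ℤ → ℤ_[p]) k7
  simp only [Int.cast_mul, Int.cast_pow, Int.cast_neg, Int.cast_sub, Int.cast_add, ← eq, ← ec0,
    ← ec2, ← eal, ← ebe, ← ega, ← eln, ← ex0, ← ex1, ← etq, Int.cast_natCast] at k2' k3' k4' k5' k6' k7'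
  rw [k1] at eq
  have hm : ∀ a b : ℤ_[p], (Q.m : ℤ_[p]) * a = (Q.m : ℤ_[p]) * b → a = b := by
    intro a b h
    calc a = ((Q.m : ℤ_[p]) * ξ) * a := by rw [hξ, one_mul]
      _ = ξ * ((Q.m : ℤ_[p]) * a) := by ring
      _ = ξ * ((Q.m : ℤ_[p]) * b) := by rw [h]
      _ = ((Q.m : ℤ_[p]) * ξ) * b := by ring
      _ = b := by rw [hξ, one_mul]
  constructor
  · rw [hq]
    apply cancel_T ht (n := D.q.length)
    rw [eq]; simp
  · rw [hc0, hal]
    apply cancel_T ht (n := D.c0.length + D.al.length)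
    linear_combination k2'
  · rw [hx0, hal]
    apply hm
    apply cancel_T ht (n := D.x0.length + 2 * D.al.length)
    rw [show (Q.T : ℤ_[p]) ^ (D.x0.length + 2 * D.al.length) *
      ((Q.m : ℤ_[p]) * ((Polynomial.eval t (P ℤ_[p] D.al)) ^ 2 * ξ)) =
      ((Q.m : ℤ_[p]) * ξ) * (((Q.T : ℤ_[p]) ^ D.al.length * (Polynomial.eval t (P ℤ_[p] D.al))) ^ 2
        * (Q.T : ℤ_[p]) ^ D.x0.length) by ring, hξ]
    linear_combination k3'
  · rw [hbe, hal]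
    apply hm
    apply cancel_T ht (n := D.be.length + D.al.length)
    linear_combination k4' + 32 * (Q.s1 : ℤ_[p]) * (Q.T : ℤ_[p]) ^ (D.be.length + D.al.length)
      * Polynomial.eval t (P ℤ_[p] D.al) * hξ
  · rw [hga, hal]
    apply hm
    apply cancel_T ht (n := D.ga.length + D.al.length)
    linear_combination k5' - 4 * (Q.s2 : ℤ_[p]) * (Q.T : ℤ_[p]) ^ (D.ga.length + D.al.length)
      * Polynomial.eval t (P ℤ_[p] D.al) * hξ
  · rw [hc2, hc0, hw]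
    apply cancel_T ht (n := D.c2.length + D.c0.length)
    linear_combination k6'
  · rw [hal, hln, hq, ← P_thl, hx1]
    apply hm
    apply cancel_T ht (n := D.al.length + D.ln.length + ((thl D.q).length + D.x1.length))
    linear_combination k7' + (Q.a : ℤ_[p]) * Polynomial.eval t (P ℤ_[p] D.al) *
      Polynomial.eval t (P ℤ_[p] D.ln) *
      (Q.T : ℤ_[p]) ^ (D.al.length + D.ln.length + ((thl D.q).length + D.x1.length)) * hξ


/-- `e1` -/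
def e1 (p : ℕ) [Fact p.Prime] : ℕ :=
  if (F1 (ZMod p) p).eval ((32 : ZMod p)⁻¹) = 0 then 1 else 0
/-- `e2` -/
def e2 (p : ℕ) [Fact p.Prime] : ℕ :=
  if (F1 (ZMod p) p).eval (-(4 : ZMod p)⁻¹) = 0 then 1 else 0

lemma F1_map {R R' : Type*} [CommRing R] [CommRing R'] (f : R →+* R') (p : ℕ) :
    (F1 R p).map f = F1 R' p := by
  simp [F1, Polynomial.map_sum]

lemma F1_eval {R : Type*} [CommRing R] (p : ℕ) (ξ : R) :
    (F1 R p).eval ξ = ∑ i ∈ Finset.range p, (aa i : R) * ξ ^ i := by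
  simp [F1, Polynomial.eval_finset_sum]

lemma dF1_eval {R : Type*} [CommRing R] (p : ℕ) (ξ : R) :
    ξ * (Polynomial.derivative (F1 R p)).eval ξ
      = ∑ i ∈ Finset.range p, (i : R) * (aa i : R) * ξ ^ i := by
  simp only [F1, Polynomial.derivative_sum, Polynomial.eval_finset_sum, Finset.mul_sum,
    Polynomial.derivative_monomial, Polynomial.eval_monomial]
  refine Finset.sum_congr rfl fun i _ => ?_
  rcases i with _ | i
  · simp
  · simp only [Nat.add_sub_cancel]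
    ring

lemma toZMod_eq_zero_iff (z : ℤ_[p]) : PadicInt.toZMod z = 0 ↔ (p : ℤ_[p]) ∣ z := by
  rw [← RingHom.mem_ker, PadicInt.ker_toZMod, PadicInt.maximalIdeal_eq_span_p,
    Ideal.mem_span_singleton]

lemma toZMod_F1_eval (z : ℤ_[p]) :
    PadicInt.toZMod ((F1 ℤ_[p] p).eval z) = (F1 (ZMod p) p).eval (PadicInt.toZMod z) := by
  rw [F1_eval, F1_eval, map_sum]
  simp

lemma ev_toZMod (t : ℤ_[p]) (f : ℤ_[p][X]) :
    ev (PadicInt.toZMod t) f = PadicInt.toZMod (f.eval t) := by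
  rw [ev, Polynomial.eval, Polynomial.hom_eval₂]
  simp

lemma half_pow (hp : 3 < p) {z : ZMod p} (hz : z ≠ 0) : z ^ ((p - 1) / 2 * 2) = 1 := by
  have hpp := (Fact.out : p.Prime)
  have hodd : (p - 1) / 2 * 2 = p - 1 := by
    have := hpp.eq_two_or_odd
    omega
  rw [hodd]
  exact ZMod.pow_card_sub_one_eq_one hz

theorem fin (hp : 3 < p) (gB : G_MASB) (gS : G_SGN) (D : Dat) (Q : Pt) (hQ : Q.ok D = true)
    (C : Cur p)
    (hw : C.w = D.w) (hq : C.q = P _ D.q) (hx0 : C.x0 = P _ D.x0) (hx1 : C.x1 = P _ D.x1)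
    (hc0 : C.c0 = P _ D.c0) (hc2 : C.c2 = P _ D.c2) (hal : C.al = P _ D.al)
    (hbe : C.be = P _ D.be) (hga : C.ga = P _ D.ga) (hln : C.ln = P _ D.ln)
    (uT : ¬ (p : ℤ) ∣ Q.T) (um : ¬ (p : ℤ) ∣ Q.m) (ud : ¬ (p : ℤ) ∣ Q.d)
    (ual : ¬ (p : ℤ) ∣ hv Q.T D.al) (uq : ¬ (p : ℤ) ∣ hv Q.T (thl D.q))
    (ux1 : ¬ (p : ℤ) ∣ hv Q.T D.x1) (uM : ¬ (p : ℤ) ∣ Q.M)
    (uD : ¬ (p : ℤ) ∣ (Q.m - 32) * (Q.m + 4))
    (ξ : ℤ_[p]) (hξ : (Q.m : ℤ_[p]) * ξ = 1) (eps : ℤ)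
    (heps : (eps : ZMod p) = (Q.M : ZMod p) ^ ((p - 1) / 2) * (Q.n * Q.d : ZMod p) ^ ((p - 1) / 2)
      * (Q.s1 : ZMod p) ^ e1 p * (Q.s2 : ZMod p) ^ e2 p) :
    (p : ℤ_[p]) ^ 2 ∣ ∑ i ∈ Finset.range p, ((Q.a : ℤ_[p]) * i + Q.b) * (aa i : ℤ_[p]) * ξ ^ i
      - (Q.b : ℤ_[p]) * eps * p := by
  obtain ⟨t, ht⟩ := (isUnit_intCast (p := p) uT).exists_right_inv
  have V := vals D Q hQ C hw hq hx0 hx1 hc0 hc2 hal hbe hga hln t ξ ht hξ
  obtain ⟨vq, vc0, vx0, vbe, vga, vc2, vr⟩ := V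
  have u_al : IsUnit (C.al.eval t) := by rw [hal]; exact isUnit_of_hv ht ual
  have u_q : IsUnit ((thP C.q).eval t) := by rw [hq, ← P_thl]; exact isUnit_of_hv ht uq
  have u_x1 : IsUnit (C.x1.eval t) := by rw [hx1]; exact isUnit_of_hv ht ux1
  have u_c0 : IsUnit (C.c0.eval t) := by rw [vc0]; exact (isUnit_intCast uM).mul u_al
  have u_w : IsUnit (C.w : ℤ_[p]) := isUnit_natCast C.hw
  have u_D : IsUnit (DD ξ) := by
    have h1 : (Q.m : ℤ_[p]) ^ 2 * DD ξ = (((Q.m - 32) * (Q.m + 4) : ℤ) : ℤ_[p]) := by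
      unfold DD
      push_cast
      linear_combination (-28 * (Q.m : ℤ_[p]) - 128 * ((Q.m : ℤ_[p]) * ξ + 1)) * hξ
    have h2 := isUnit_intCast (p := p) uD
    rw [← h1] at h2
    exact isUnit_of_mul_isUnit_right h2
  have u_ξ : IsUnit ξ := IsUnit.of_mul_eq_one_right _ hξ
  set h := (p - 1) / 2 with hh
  -- reductions mod p
  set π := (PadicInt.toZMod (p := p)) with hπ
  have nz : ∀ z : ℤ_[p], IsUnit z → π z ≠ 0 := fun z hz => (hz.map π).ne_zero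
  have sq1 : (Q.s1 : ZMod p) ^ 2 = 1 := by
    simp only [Pt.ok, Bool.and_eq_true, beq_iff_eq] at hQ
    have := congrArg (Int.cast : ℤ → ZMod p) hQ.1.2
    simpa using this
  have sq2 : (Q.s2 : ZMod p) ^ 2 = 1 := by
    simp only [Pt.ok, Bool.and_eq_true, beq_iff_eq] at hQ
    have := congrArg (Int.cast : ℤ → ZMod p) hQ.2
    simpa using this
  have nD : DD (π ξ) ≠ 0 := by
    have := nz _ u_D
    simp only [DD, map_sub, map_mul, map_one, map_pow, map_ofNat] at this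
    simpa only [DD] using this
  have sgn := gS p hp C (π t) (π ξ) (by rw [ev_toZMod, vq, map_zero])
    (by
      intro h0
      apply nz _ u_q
      rw [thP_def]
      rw [ev_toZMod, ← hπ] at h0
      rw [Polynomial.eval_mul, map_mul, h0, mul_zero])
    (by rw [ev_toZMod]; exact nz _ u_al) (by rw [ev_toZMod]; exact nz _ u_c0)
    (by rw [ev_toZMod]; exact nz _ u_x1) nD
    (by rw [ev_toZMod, ev_toZMod, vx0]; simp [← hπ]) (e1 p) (e2 p) rfl rfl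
  rw [ev_toZMod, ev_toZMod, ev_toZMod, ev_toZMod, vc0, vbe, vga] at sgn
  simp only [map_mul, map_sub, map_add, map_one, map_ofNat, map_intCast] at sgn
  rw [← hπ, ← hh] at sgn
  set σ : ZMod p := (if (F1 (ZMod p) p).eval (π ξ) = 0 then -1 else 1) with hσ
  have hD2 : (1 - 32 * π ξ) ≠ 0 ∧ (1 + 4 * π ξ) ≠ 0 := by
    have : DD (π ξ) = (1 - 32 * π ξ) * (1 + 4 * π ξ) := by unfold DD; ring
    rw [this] at nD
    exact ⟨left_ne_zero_of_mul nD, right_ne_zero_of_mul nD⟩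
  have hσ' : σ = (Q.M : ZMod p) ^ h * (Q.s1 : ZMod p) ^ e1 p * (Q.s2 : ZMod p) ^ e2 p := by
    have n1 : (π (C.al.eval t)) ^ h * (π (C.al.eval t) * (1 - 32 * π ξ)) ^ e1 p
        * (π (C.al.eval t) * (1 + 4 * π ξ)) ^ e2 p ≠ 0 :=
      mul_ne_zero (mul_ne_zero (pow_ne_zero _ (nz _ u_al))
        (pow_ne_zero _ (mul_ne_zero (nz _ u_al) hD2.1)))
        (pow_ne_zero _ (mul_ne_zero (nz _ u_al) hD2.2))
    apply mul_right_cancel₀ n1
    have e := sgn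
    rw [mul_pow, mul_pow (Q.s1 : ZMod p), mul_pow (Q.s2 : ZMod p)] at e
    linear_combination -e
  -- (c2)^h in terms of (w c0)^h
  set A : ℤ_[p] := ((C.w : ℤ_[p]) * C.c0.eval t) ^ h with hA
  have u_A : IsUnit A := (u_w.mul u_c0).pow h
  have ndz : ((Q.d : ℤ) : ZMod p) ≠ 0 := by
    rw [Ne, ZMod.intCast_zmod_eq_zero_iff_dvd]; exact ud
  have hc2 : π ((C.c2.eval t) ^ h) = (Q.n * Q.d : ZMod p) ^ h * π A := by
    have e := congrArg (fun z => π (z ^ h)) vc2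
    simp only [mul_pow, map_mul, map_pow, map_intCast] at e
    have e2 := half_pow hp ndz
    rw [← hh] at e2
    rw [hA]
    simp only [mul_pow, map_mul, map_pow]
    have e3 : (Q.d : ZMod p) ^ (h * 2) = (Q.d : ZMod p) ^ h * (Q.d : ZMod p) ^ h := by
      rw [mul_comm h 2, two_mul, pow_add]
    rw [e3] at e2
    linear_combination (Q.d : ZMod p) ^ h * e - π (C.c2.eval t) ^ h * e2
  have hepsσ : (eps : ZMod p) * π A = σ * π ((C.c2.eval t) ^ h) := by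
    rw [hc2, heps, hσ']; ring
  -- integer sign
  obtain ⟨s, hs, hsσ⟩ : ∃ s : ℤ_[p], π s = σ ∧ (p : ℤ_[p]) ^ 2 ∣
      (thP C.q).eval t * C.x1.eval t * C.al.eval t * A *
          (Polynomial.derivative (F1 ℤ_[p] p)).eval ξ
        - (C.al.eval t) ^ 2 * C.ln.eval t *
          (A * (F1 ℤ_[p] p).eval ξ - (p : ℤ_[p]) * s * (C.c2.eval t) ^ h) := by
    have key := gB p hp C t ξ vq u_q u_al u_c0 u_x1 u_D vx0
    rw [← hh, ← hA] at key
    by_cases hF : (p : ℤ_[p]) ∣ (F1 ℤ_[p] p).eval ξ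
    · refine ⟨-1, ?_, ?_⟩
      · rw [hσ, if_pos]
        · simp
        · rw [← toZMod_F1_eval, ← toZMod_eq_zero_iff] at *
          exact hF
      · have := key.2 hF
        convert this using 1
        ring
    · refine ⟨1, ?_, ?_⟩
      · rw [hσ, if_neg]
        · simp
        · rw [← toZMod_F1_eval, toZMod_eq_zero_iff]
          exact hF
      · have := key.1 hF
        convert this using 1
        ring
  -- replace `s c2^h` by `eps A`
  obtain ⟨z, hz⟩ : (p : ℤ_[p]) ∣ (eps : ℤ_[p]) * A - s * (C.c2.eval t) ^ h := by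
    rw [← toZMod_eq_zero_iff, ← hπ, map_sub, map_mul, map_mul, hs, map_intCast, hepsσ, sub_self]
  obtain ⟨y, hy⟩ := hsσ
  have hsum : ∑ i ∈ Finset.range p, ((Q.a : ℤ_[p]) * i + Q.b) * (aa i : ℤ_[p]) * ξ ^ i
      = (Q.a : ℤ_[p]) * (ξ * (Polynomial.derivative (F1 ℤ_[p] p)).eval ξ)
        + (Q.b : ℤ_[p]) * (F1 ℤ_[p] p).eval ξ := by
    rw [dF1_eval, F1_eval, Finset.mul_sum, Finset.mul_sum, ← Finset.sum_add_distrib]
    refine Finset.sum_congr rfl fun i _ => ?_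
    ring
  rw [hsum]
  have u_all : IsUnit ((thP C.q).eval t * C.x1.eval t * C.al.eval t * A) :=
    ((u_q.mul u_x1).mul u_al).mul u_A
  rw [← u_all.dvd_mul_left]
  refine ⟨(Q.a : ℤ_[p]) * ξ * y
    - (Q.b : ℤ_[p]) * ((thP C.q).eval t * C.x1.eval t * C.al.eval t) * z, ?_⟩
  linear_combination (Q.a : ℤ_[p]) * ξ * hy
    - ((Q.b : ℤ_[p]) * ((thP C.q).eval t * C.x1.eval t * C.al.eval t) * (p : ℤ_[p])) * hz
    + (C.al.eval t * (A * (F1 ℤ_[p] p).eval ξ - (p : ℤ_[p]) * s * (C.c2.eval t) ^ h)) * vr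

end

end Pool.Agent.Helper43.Fr
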