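import Pool.Agent.Helper43.Fr.Defs

/-!
# Franel number supercongruences (MP_c866d3_nt): the goals (packets)

Throughout `h = (p-1)/2`.
-/

namespace Pool.Agent.Helper43.Fr

open scoped PowerSeries Polynomial

noncomputable section

/-! ## Arithmetic of `a_n` -/

/-- REC: recursion `n³ a_n = q1(n) a_{n-1} + q2(n) a_{n-2}` (from Franel's recursion). -/
def G_REC : Prop :=
  ∀ n : ℕ, ((n : ℤ) + 2) ^ 3 * (aa (n + 2) : ℤ) =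
    q1 ((n : ℤ) + 2) * (aa (n + 1) : ℤ) + q2 ((n : ℤ) + 2) * (aa n : ℤ)

/-- APJ -/
def G_APJ : Prop :=
  ∀ (p : ℕ) [Fact p.Prime], 3 < p →
    (∀ j : ℕ, ((p : ℤ) ^ 2 ∣ (aa (p * j) : ℤ) - (aa j : ℤ))) ∧
    (∀ j : ℕ, p ∣ aa (p * (j + 1) - 1)) ∧
    (∀ i : ℕ, p < 2 * i → i < p → p ∣ aa i)

/-- the second order correction `B`: `a_{i+pj} ≡ a_j a_i + p j a_j b_i (mod p²)` -/
structure IsB (p : ℕ) [Fact p.Prime] (B : ℤ_[p][X]) : Prop where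
  deg : B.natDegree < p
  zero : B.coeff 0 = 0
  two : ∀ i : ℕ, i < p → ∀ j : ℕ, ((p : ℤ_[p]) ^ 2 ∣
    (aa (i + p * j) : ℤ_[p]) - (aa j : ℤ_[p]) * (aa i : ℤ_[p])
      - (p : ℤ_[p]) * (j : ℤ_[p]) * (aa j : ℤ_[p]) * B.coeff i)
  lop1 : Lop (F1 (ZMod p) p) = 0
  lop : Lop (B.map (PadicInt.toZMod (p := p))) + Lop' (F1 (ZMod p) p) = 0

/-- TWOA (prove `G_REC → G_APJ → G_TWOA`) -/
def G_TWOA : Prop :=
  ∀ (p : ℕ) [Fact p.Prime], 3 < p → ∃ B : ℤ_[p][X], IsB p B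

/-- ODE (prove `G_REC → G_ODE`): the second order quadratic differential equation of `F` -/
def G_ODE : Prop :=
  ∀ (R : Type) [CommRing R],
    DD (PowerSeries.X : R⟦X⟧) * (2 * FF R * th (th (FF R)) - (th (FF R)) ^ 2)
      + th (DD (PowerSeries.X : R⟦X⟧)) * FF R * th (FF R)
      - 4 * (2 * PowerSeries.X + 24 * PowerSeries.X ^ 2) * (FF R) ^ 2 = 0

/-- ODE1 (prove `G_ODE → (G_TWOA) → G_ODE1`): the same equation for the truncation, mod `p` -/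
def G_ODE1 : Prop :=
  ∀ (p : ℕ) [Fact p.Prime], 3 < p →
    DD (Polynomial.X : (ZMod p)[X]) *
        (2 * F1 (ZMod p) p * thP (thP (F1 (ZMod p) p)) - (thP (F1 (ZMod p) p)) ^ 2)
      + thP (DD (Polynomial.X : (ZMod p)[X])) * F1 (ZMod p) p * thP (F1 (ZMod p) p)
      - 4 * (2 * Polynomial.X + 24 * Polynomial.X ^ 2) * (F1 (ZMod p) p) ^ 2 = 0

/-- WRO (prove `G_APJ → G_WRO`): the Wronskian -/
def G_WRO : Prop :=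
  ∀ (p : ℕ) [Fact p.Prime], 3 < p → ∀ B : ℤ_[p][X], IsB p B →
    (F1 (ZMod p) p) ^ 2 + F1 (ZMod p) p * thP (B.map (PadicInt.toZMod (p := p)))
        - B.map (PadicInt.toZMod (p := p)) * thP (F1 (ZMod p) p)
      = F1 (ZMod p) p * (DD (Polynomial.X : (ZMod p)[X])) ^ ((p - 1) / 2)

/-- GAM (prove `G_TWOA → G_WRO → G_GAM`) -/
def G_GAM : Prop :=
  ∀ (p : ℕ) [Fact p.Prime], 3 < p → ∃ Γ : ℤ_[p]⟦X⟧,
    (FF ℤ_[p]) ^ (p - 1) * ((F1 ℤ_[p] p : ℤ_[p][X]) : ℤ_[p]⟦X⟧) = 1 + (p : ℤ_[p]⟦X⟧) * Γ ∧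
    (p : ℤ_[p]⟦X⟧) ∣ FF ℤ_[p] * th Γ
      - (th (FF ℤ_[p]) - (th (FF ℤ_[p])) ^ p * (DD (PowerSeries.X : ℤ_[p]⟦X⟧)) ^ ((p - 1) / 2))

/-- MUL (prove `G_ODE1 → G_APJ → G_MUL`): multiplicities of the roots of `F_1` in
characteristic `p` -/
def G_MUL : Prop :=
  ∀ (p : ℕ) [Fact p.Prime], 3 < p → ∀ (K : Type) [Field K] [CharP K p] (r : K),
    (F1 K p).eval r = 0 →
      (DD r ≠ 0 → (Polynomial.derivative (F1 K p)).eval r = 0 ∧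
        (Polynomial.derivative (Polynomial.derivative (F1 K p))).eval r ≠ 0) ∧
      (DD r = 0 → (Polynomial.derivative (F1 K p)).eval r ≠ 0)

/-- SQF (prove `G_MUL → G_SQF`): `F_1 = (1-32X)^{e1} (1+4X)^{e2} K²` -/
def G_SQF : Prop :=
  ∀ (p : ℕ) [Fact p.Prime], 3 < p → ∀ (K : Type) [Field K] [CharP K p] [IsAlgClosed K],
    ∃ (e1 e2 : ℕ) (P : K[X]),
      F1 K p = (1 - 32 * Polynomial.X) ^ e1 * (1 + 4 * Polynomial.X) ^ e2 * P ^ 2 ∧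
      P.coeff 0 = 1 ∧
      (∀ r : K, P.eval r = 0 → (Polynomial.derivative P).eval r ≠ 0) ∧
      (e1 = if (F1 (ZMod p) p).eval ((32 : ZMod p)⁻¹) = 0 then 1 else 0) ∧
      (e2 = if (F1 (ZMod p) p).eval (-(4 : ZMod p)⁻¹) = 0 then 1 else 0)

/-! ## The curve -/

variable {p : ℕ} [Fact p.Prime]

/-- substitution `f(a)` of power series over `ℤ_[p]` -/
def sb (a f : ℤ_[p]⟦X⟧) : ℤ_[p]⟦X⟧ := PowerSeries.subst a f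

/-- EXA (prove `G_ODE → G_EXA`): the exact isogeny relation -/
def G_EXA : Prop :=
  ∀ (p : ℕ) [Fact p.Prime], 3 < p → ∀ C : Cur p,
    ∃ Ex Ey : ℤ_[p]⟦X⟧,
      sb C.x (FF ℤ_[p]) * Ex = sb C.x (th (FF ℤ_[p])) * C.rx ∧
      sb C.y (FF ℤ_[p]) * Ey = sb C.y (th (FF ℤ_[p])) * C.ry ∧
      Ex - Ey = C.lam ∧
      sb C.x (FF ℤ_[p]) = C.M * sb C.y (FF ℤ_[p])

/-- `Ξ_x = F_1(x) (ψ M)^h` -/
def Cur.Xix (C : Cur p) : ℤ_[p]⟦X⟧ :=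
  Polynomial.aeval C.x (F1 ℤ_[p] p) * (C.ψ * C.M) ^ ((p - 1) / 2)

/-- `Ξ_y = F_1(y) (ψ M')^h` -/
def Cur.Xiy (C : Cur p) : ℤ_[p]⟦X⟧ :=
  Polynomial.aeval C.y (F1 ℤ_[p] p) * (C.ψ * C.M') ^ ((p - 1) / 2)

/-- KAP (prove `G_EXA → G_GAM → G_KAP`) -/
def G_KAP : Prop :=
  ∀ (p : ℕ) [Fact p.Prime], 3 < p → ∀ C : Cur p,
    ((p : ℤ_[p]⟦X⟧) ∣ Polynomial.aeval C.x (F1 ℤ_[p] p) * C.M ^ (p - 1)
      - Polynomial.aeval C.y (F1 ℤ_[p] p)) ∧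
    ∃ κ : ℤ_[p]⟦X⟧, C.Xix - C.Xiy = (p : ℤ_[p]⟦X⟧) * κ * C.Xix ∧
      (p : ℤ_[p]⟦X⟧) ∣ C.Xix * th κ - C.Xix * C.lam + C.lam ^ p

/-- `Θ0 + Θ1 v = w^h (c0 + c1 v)^h ∑ a_i (x0 + x1 v)^i al^{2(p-1-i)}` for every square root `v`
of `q` in every ring -/
def IsTheta (C : Cur p) (T0 T1 : ℤ_[p][X]) : Prop :=
  ∀ (S : Type) [CommRing S] (φ : ℤ_[p][X] →+* S) (v : S), v ^ 2 = φ C.q →
    φ T0 + φ T1 * v = (C.w : S) ^ ((p - 1) / 2) * (φ C.c0 + φ C.c1 * v) ^ ((p - 1) / 2) *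
      ∑ i ∈ Finset.range p, (aa i : S) * (φ C.x0 + φ C.x1 * v) ^ i * (φ C.al) ^ (2 * (p - 1 - i))

/-- TH -/
def G_TH : Prop :=
  ∀ (p : ℕ) [Fact p.Prime], 3 < p → ∀ C : Cur p, ∃ T0 T1 : ℤ_[p][X], IsTheta C T0 T1

/-- MASA (prove `G_KAP → G_MASA`) -/
def G_MASA : Prop :=
  ∀ (p : ℕ) [Fact p.Prime], 3 < p → ∀ (C : Cur p) (T0 T1 : ℤ_[p][X]), IsTheta C T0 T1 →
    ∃ k : ℤ_[p][X], T1 = (p : ℤ_[p][X]) * k ∧
      (p : ℤ_[p][X]) ∣ C.ln * C.al ^ (p - 1) * T0 ^ 2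
        - C.c2 ^ ((p - 1) / 2) * C.al ^ (2 * (p - 1)) * C.ln ^ p * T0
        + 2 * C.al ^ p * k * C.q * thP T0
        - C.al ^ p * T0 * (2 * C.q * thP k + k * thP C.q)

/-- MASB (prove `G_TH → G_MASA → G_MUL → G_MASB`) -/
def G_MASB : Prop :=
  ∀ (p : ℕ) [Fact p.Prime], 3 < p → ∀ (C : Cur p) (t0 ξ : ℤ_[p]),
    C.q.eval t0 = 0 → IsUnit ((thP C.q).eval t0) → IsUnit (C.al.eval t0) →
    IsUnit (C.c0.eval t0) → IsUnit (C.x1.eval t0) → IsUnit (DD ξ) →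
    C.x0.eval t0 = (C.al.eval t0) ^ 2 * ξ →
    (¬ (p : ℤ_[p]) ∣ (F1 ℤ_[p] p).eval ξ → (p : ℤ_[p]) ^ 2 ∣
      (thP C.q).eval t0 * C.x1.eval t0 * C.al.eval t0 *
          ((C.w : ℤ_[p]) * C.c0.eval t0) ^ ((p - 1) / 2) *
          (Polynomial.derivative (F1 ℤ_[p] p)).eval ξ
        - (C.al.eval t0) ^ 2 * C.ln.eval t0 *
          (((C.w : ℤ_[p]) * C.c0.eval t0) ^ ((p - 1) / 2) * (F1 ℤ_[p] p).eval ξ
            - (p : ℤ_[p]) * (C.c2.eval t0) ^ ((p - 1) / 2))) ∧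
    ((p : ℤ_[p]) ∣ (F1 ℤ_[p] p).eval ξ → (p : ℤ_[p]) ^ 2 ∣
      (thP C.q).eval t0 * C.x1.eval t0 * C.al.eval t0 *
          ((C.w : ℤ_[p]) * C.c0.eval t0) ^ ((p - 1) / 2) *
          (Polynomial.derivative (F1 ℤ_[p] p)).eval ξ
        - (C.al.eval t0) ^ 2 * C.ln.eval t0 *
          (((C.w : ℤ_[p]) * C.c0.eval t0) ^ ((p - 1) / 2) * (F1 ℤ_[p] p).eval ξ
            + (p : ℤ_[p]) * (C.c2.eval t0) ^ ((p - 1) / 2)))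

/-! ## Signs -/

/-- NSQ: transfer of polynomial identities in `(t, V)` -/
def G_NSQ : Prop :=
  ∀ (K : Type) [Field K] (q : K[X]) (t0 : K), q.eval t0 = 0 →
    (Polynomial.derivative q).eval t0 ≠ 0 → ∀ V : K⟦X⟧, V ^ 2 = (q : K⟦X⟧) →
    ∀ P : K[X][X], Polynomial.eval₂ (Polynomial.coeToPowerSeries.ringHom (R := K)) V P = 0 →
    ∀ (S : Type) [CommRing S] (φ : K[X] →+* S) (v : S), v ^ 2 = φ q →
      Polynomial.eval₂ φ v P = 0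

/-- value of (the reduction mod `p` of) a polynomial over `ℤ_[p]` at a point of `ZMod p` -/
def ev (t : ZMod p) (f : ℤ_[p][X]) : ZMod p := f.eval₂ (PadicInt.toZMod (p := p)) t

/-- SGN (prove `G_SQF → G_KAP → G_NSQ → G_SGN`) -/
def G_SGN : Prop :=
  ∀ (p : ℕ) [Fact p.Prime], 3 < p → ∀ (C : Cur p) (t0 ξ : ZMod p),
    ev t0 C.q = 0 → ev t0 (Polynomial.derivative C.q) ≠ 0 → ev t0 C.al ≠ 0 →
    ev t0 C.c0 ≠ 0 → ev t0 C.x1 ≠ 0 → DD ξ ≠ 0 → ev t0 C.x0 = (ev t0 C.al) ^ 2 * ξ →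
    ∀ e1 e2 : ℕ,
      (e1 = if (F1 (ZMod p) p).eval ((32 : ZMod p)⁻¹) = 0 then 1 else 0) →
      (e2 = if (F1 (ZMod p) p).eval (-(4 : ZMod p)⁻¹) = 0 then 1 else 0) →
      (ev t0 C.c0) ^ ((p - 1) / 2) * (ev t0 C.be) ^ e1 * (ev t0 C.ga) ^ e2 =
        (if (F1 (ZMod p) p).eval ξ = 0 then -1 else 1) * (ev t0 C.al) ^ ((p - 1) / 2) *
          (ev t0 C.al * (1 - 32 * ξ)) ^ e1 * (ev t0 C.al * (1 + 4 * ξ)) ^ e2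

/-- NOD (prove `G_TH → G_MASA → G_MUL → G_NOD`) -/
def G_NOD : Prop :=
  ∀ (p : ℕ) [Fact p.Prime], 3 < p → ∀ (C : Cur p) (t1 ξ : ZMod p),
    DD ξ = 0 → ev t1 C.q ≠ 0 → ev t1 C.x1 = 0 → ev t1 C.al ≠ 0 →
    ev t1 C.c0 ≠ 0 → ev t1 C.c1 ≠ 0 → ev t1 (Polynomial.derivative C.x1) ≠ 0 →
    ev t1 C.x0 = (ev t1 C.al) ^ 2 * ξ →
    (ev t1 (Polynomial.derivative C.x0)
        - 2 * ev t1 C.al * ev t1 (Polynomial.derivative C.al) * ξ) * ev t1 C.c1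
      = ev t1 (Polynomial.derivative C.x1) * ev t1 C.c0 →
    ((F1 (ZMod p) p).eval ξ = 0 ↔ ¬ IsSquare (ev t1 C.q))

/-- SQRT: square roots of power series with constant coefficient 1 -/
def G_SQRT : Prop :=
  ∀ (p : ℕ) [Fact p.Prime], 3 < p → ∀ q : ℤ_[p]⟦X⟧, PowerSeries.constantCoeff q = 1 →
    ∃ V : ℤ_[p]⟦X⟧, V ^ 2 = q ∧ PowerSeries.constantCoeff V = 1

end

end Pool.Agent.Helper43.Fr
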