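import Pool.Agent.Helper43.Fr.Signs
import Pool.Agent.Helper14.Fr.Rec
import Pool.Agent.Helper97.Fr.APJ
import Pool.Agent.Helper33.Fr.Twoa
import Pool.Agent.Helper68.Fr.Ode
import Pool.Agent.Helper96.Fr.Wro
import Pool.Agent.Helper57.Fr.Gam
import Pool.Agent.Helper97.Fr.MUL
import Pool.Agent.Helper82.Fr.Sqf
import Pool.Agent.Helper13.Fr.EXA
import Pool.Agent.Helper26.Fr.KAP
import Pool.Agent.Helper14.Fr.Theta
import Pool.Agent.Helper16.Fr.MASA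
import Pool.Agent.Helper15.Fr.Masb
import Pool.Agent.Helper32.Fr.NSQ
import Pool.Agent.Helper80.Fr.SGN
import Pool.Agent.Helper67.Fr.NOD
import Pool.Agent.Helper66.Fr.SQRT

/-!
# The seven supercongruences in integer form
-/

namespace Pool.Agent.Helper43.Fr

open PL
open scoped PowerSeries Polynomial NumberTheorySymbols

lemma gREC : G_REC := PkREC.rec
lemma gAPJ : G_APJ := PkAPJ.apj
lemma gTWOA : G_TWOA := PkTwoa.twoa gREC gAPJ
lemma gODE : G_ODE := PkOde.ode gREC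
lemma gODE1 : G_ODE1 := PkOde.ode1 gODE gTWOA
lemma gWRO : G_WRO := PkWRO.wro gAPJ
lemma gGAM : G_GAM := PkGam.gam gTWOA gWRO
lemma gMUL : G_MUL := PkMUL.mul gODE1 gAPJ
lemma gSQF : G_SQF := PkSqf.sqf gMUL
lemma gEXA : G_EXA := PkEXA.exa gODE
lemma gKAP : G_KAP := PkKAP.kap gEXA gGAM
lemma gTH : G_TH := PkTH.th'
lemma gMASA : G_MASA := PkMASA.masa gKAP
lemma gMASB : G_MASB := PkMasb.masb gTH gMASA gMUL
lemma gNSQ : G_NSQ := PkNSQ.nsq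
lemma gSGN : G_SGN := PkSGN.sgn gSQF gKAP gNSQ
lemma gNOD : G_NOD := PkNOD.nod gTH gMASA gMUL
lemma gSQRT : G_SQRT := PkSQRT.sqrt'

/-- the integer form of the congruence `∑_{n<p} (a n + b) a_n / m^n ≡ B mod p²` -/
def IntC (p : ℕ) (m a b B : ℤ) : Prop :=
  (p : ℤ) ^ 2 ∣ ∑ n ∈ Finset.range p, (a * n + b) * (aa n : ℤ) * m ^ (p - 1 - n)
    - B * m ^ (p - 1)

instance (p : ℕ) (m a b B : ℤ) : Decidable (IntC p m a b B) := by
  unfold IntC; infer_instance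

noncomputable section

variable {p : ℕ} [Fact p.Prime]

lemma intC_of_padic {m a b B : ℤ} {ξ : ℤ_[p]} (hξ : (m : ℤ_[p]) * ξ = 1)
    (h : (p : ℤ_[p]) ^ 2 ∣ ∑ i ∈ Finset.range p, ((a : ℤ_[p]) * i + b) * (aa i : ℤ_[p]) * ξ ^ i
      - (B : ℤ_[p])) : IntC p m a b B := by
  have h1 : (p : ℤ_[p]) ^ 2 ∣ (((∑ n ∈ Finset.range p, (a * n + b) * (aa n : ℤ) * m ^ (p - 1 - n)
    - B * m ^ (p - 1) : ℤ)) : ℤ_[p]) := by
    have h2 : (((∑ n ∈ Finset.range p, (a * n + b) * (aa n : ℤ) * m ^ (p - 1 - n)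
        - B * m ^ (p - 1) : ℤ)) : ℤ_[p])
        = (m : ℤ_[p]) ^ (p - 1) * (∑ i ∈ Finset.range p,
          ((a : ℤ_[p]) * i + b) * (aa i : ℤ_[p]) * ξ ^ i - (B : ℤ_[p])) := by
      push_cast
      rw [mul_sub, Finset.mul_sum]
      congr 1
      · refine Finset.sum_congr rfl fun i hi => ?_
        have hi' : i ≤ p - 1 := by
          have := Finset.mem_range.1 hi; omega
        have h3 : (m : ℤ_[p]) ^ (p - 1) = (m : ℤ_[p]) ^ (p - 1 - i) * (m : ℤ_[p]) ^ i := by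
          rw [← pow_add]; congr 1; omega
        have h4 : (m : ℤ_[p]) ^ i * ξ ^ i = 1 := by rw [← mul_pow, hξ, one_pow]
        rw [h3]
        linear_combination (-((m : ℤ_[p]) ^ (p - 1 - i) * ((a : ℤ_[p]) * i + b) * (aa i : ℤ_[p])))
          * h4
      · ring
    rw [h2]
    exact h.mul_left _
  have h5 := (PadicInt.pow_p_dvd_int_iff (p := p) 2 _).1 h1
  unfold IntC
  exact_mod_cast h5

/-- general case -/
theorem gen (hp : 3 < p) (D : Dat) (Q : Pt) (hQ : Q.ok D = true)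
    (o1 : D.ok1 = true) (o2 : D.ok2 = true) (o3 : D.ok3 = true)
    (uN : ¬ p ∣ D.N) (uw : ¬ p ∣ D.w)
    (uT : ¬ (p : ℤ) ∣ Q.T) (um : ¬ (p : ℤ) ∣ Q.m) (ud : ¬ (p : ℤ) ∣ Q.d)
    (ual : ¬ (p : ℤ) ∣ hv Q.T D.al) (uq : ¬ (p : ℤ) ∣ hv Q.T (thl D.q))
    (ux1 : ¬ (p : ℤ) ∣ hv Q.T D.x1) (uM : ¬ (p : ℤ) ∣ Q.M)
    (uD : ¬ (p : ℤ) ∣ (Q.m - 32) * (Q.m + 4)) :
    IntC p Q.m Q.a Q.b (Q.b * (legendreSym p (Q.M * (Q.n * Q.d)) * Q.s1 ^ e1 p * Q.s2 ^ e2 p) * p) := by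
  obtain ⟨C, -, hw, hq, hx0, hx1, hc0, hc1, hc2, hal, hbe, hga, hln⟩ :=
    mkCur gSQRT hp D o1 o2 o3 uN uw
  obtain ⟨ξ, hξ⟩ := (isUnit_intCast (p := p) um).exists_right_inv
  have key := fin hp gMASB gSGN D Q hQ C hw hq hx0 hx1 hc0 hc2 hal hbe hga hln uT um ud ual uq ux1
    uM uD ξ hξ (legendreSym p (Q.M * (Q.n * Q.d)) * Q.s1 ^ e1 p * Q.s2 ^ e2 p) (by
      push_cast
      rw [leg_cast hp]
      push_cast
      rw [mul_pow])
  apply intC_of_padic hξ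
  convert key using 2
  push_cast
  ring

end

end Pool.Agent.Helper43.Fr
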