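import Pool.Agent.Helper43.Fr.Curve

/-!
# Construction of the structure `Cur` from the data
-/

namespace Pool.Agent.Helper43.Fr

open PL
open scoped PowerSeries Polynomial

noncomputable section

variable {p : ℕ} [Fact p.Prime]

lemma th_def {R : Type*} [CommRing R] (f : R⟦X⟧) :
    th f = PowerSeries.X * PowerSeries.derivative R f := by
  simp [th]

lemma thP_def {R : Type*} [CommRing R] (f : R[X]) :
    thP f = Polynomial.X * Polynomial.derivative f := by
  simp [thP]

lemma th_coe {R : Type*} [CommRing R] (f : R[X]) :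
    th (f : R⟦X⟧) = ((thP f : R[X]) : R⟦X⟧) := by
  rw [th_def, thP_def]
  simp [PowerSeries.derivative_coe]

lemma constantCoeff_th {R : Type*} [CommRing R] (f : R⟦X⟧) :
    PowerSeries.constantCoeff (th f) = 0 := by
  rw [th_def]; simp

/-- the power series with given coefficients -/
def S (p : ℕ) [Fact p.Prime] (l : List ℤ) : ℤ_[p]⟦X⟧ := ((P ℤ_[p] l : ℤ_[p][X]) : ℤ_[p]⟦X⟧)

lemma S_add (l m : List ℤ) : S p (add l m) = S p l + S p m := by simp [S, P_add]
lemma S_mul (l m : List ℤ) : S p (mul l m) = S p l * S p m := by simp [S, P_mul]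
lemma S_sub (l m : List ℤ) : S p (sub l m) = S p l - S p m := by
  simp [S, P_sub]
lemma S_sm (c : ℤ) (l : List ℤ) : S p (sm c l) = (c : ℤ_[p]⟦X⟧) * S p l := by
  simp only [S, P_sm, Polynomial.coe_mul]
  congr 1
  rw [← Polynomial.C_eq_intCast, Polynomial.coe_C]
  simp
lemma S_sh (k : ℕ) (l : List ℤ) : S p (sh k l) = PowerSeries.X ^ k * S p l := by
  simp [S, P_sh]
lemma S_thl (l : List ℤ) : S p (thl l) = th (S p l) := by
  simp only [S, P_thl, th_coe]
lemma S_eqv {l m : List ℤ} (h : eqv l m = true) : S p l = S p m := by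
  simp only [S, P_eqv h]
lemma S_nil : S p [] = 0 := by simp [S]
lemma S_cc (l : List ℤ) : PowerSeries.constantCoeff (S p l) = (hd l : ℤ_[p]) := by
  simp only [S]
  rw [← PowerSeries.coeff_zero_eq_constantCoeff_apply, Polynomial.coeff_coe, P_coeff_zero]

/-- value of a pair -/
def E (V : ℤ_[p]⟦X⟧) (a : List ℤ × List ℤ) : ℤ_[p]⟦X⟧ := S p a.1 + S p a.2 * V

lemma E_pm (D : Dat) (V : ℤ_[p]⟦X⟧) (hV : V ^ 2 = S p D.q) (a b : List ℤ × List ℤ) :
    E V (D.pm a b) = E V a * E V b := by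
  simp only [E, Dat.pm, S_add, S_mul]
  linear_combination (-(S p a.2 * S p b.2)) * hV

lemma th_mul' (f g : ℤ_[p]⟦X⟧) : th (f * g) = th f * g + f * th g := by
  rw [Derivation.leibniz]; simp only [smul_eq_mul]; ring

lemma th_inv {a b : ℤ_[p]⟦X⟧} (h : a * b = 1) : th b = -(th a) * b ^ 2 := by
  have h1 : th a * b + a * th b = 0 := by
    rw [← th_mul', h]; simp
  linear_combination b * h1 - th b * h

lemma th_X_pow (k : ℕ) : th ((PowerSeries.X : ℤ_[p]⟦X⟧) ^ k)
    = (k : ℤ_[p]⟦X⟧) * PowerSeries.X ^ k := by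
  induction k with
  | zero => simp
  | succ k ih =>
    rw [pow_succ, th_mul', ih, th_def PowerSeries.X]
    push_cast
    simp
    ring

lemma th_natCast (n : ℕ) : th (n : ℤ_[p]⟦X⟧) = 0 := by
  simp

lemma th_sq (f : ℤ_[p]⟦X⟧) : th (f ^ 2) = 2 * f * th f := by
  rw [pow_two, th_mul']; ring

lemma isUnit_of_cc {f : ℤ_[p]⟦X⟧} (h : IsUnit (PowerSeries.constantCoeff f)) : IsUnit f :=
  PowerSeries.isUnit_iff_constantCoeff.2 h

lemma isUnit_natCast {n : ℕ} (h : ¬ p ∣ n) : IsUnit (n : ℤ_[p]) := by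
  rw [PadicInt.isUnit_iff]
  have := PadicInt.norm_int_lt_one_iff_dvd (p := p) (n : ℤ)
  have h1 := PadicInt.norm_le_one (n : ℤ_[p])
  rcases lt_or_eq_of_le h1 with h2 | h2
  · exfalso
    have h3 : ‖((n : ℤ) : ℤ_[p])‖ < 1 := by simpa using h2
    rw [this] at h3
    exact h (by exact_mod_cast h3)
  · exact h2

lemma isUnit_two (hp : 3 < p) : IsUnit (2 : ℤ_[p]) := by
  have := isUnit_natCast (p := p) (n := 2) (by
    intro h
    have := Nat.le_of_dvd (by norm_num) h
    omega)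
  exact_mod_cast this

end

end Pool.Agent.Helper43.Fr
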