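import Pool.Agent.Helper43.Fr.Mk

/-!
# Construction of the structure `Cur` from the data
-/

namespace Pool.Agent.Helper43.Fr

open PL
open scoped PowerSeries Polynomial

noncomputable section

variable {p : ℕ} [Fact p.Prime]

theorem mkCur (hS : G_SQRT) (hp : 3 < p) (D : Dat) (h1 : D.ok1 = true) (h2 : D.ok2 = true)
    (h3 : D.ok3 = true) (hN : ¬ p ∣ D.N) (hw : ¬ p ∣ D.w) :
    ∃ C : Cur p, C.N = D.N ∧ C.w = D.w ∧ C.q = P _ D.q ∧ C.x0 = P _ D.x0 ∧ C.x1 = P _ D.x1 ∧
      C.c0 = P _ D.c0 ∧ C.c1 = P _ D.c1 ∧ C.c2 = P _ D.c2 ∧ C.al = P _ D.al ∧ C.be = P _ D.be ∧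
      C.ga = P _ D.ga ∧ C.ln = P _ D.ln := by
  -- unpack the checks
  simp only [Dat.ok1, Bool.and_eq_true, beq_iff_eq, decide_eq_true_eq] at h1
  obtain ⟨⟨⟨⟨⟨⟨⟨⟨⟨⟨⟨⟨⟨⟨⟨⟨hq0, hal0⟩, hbe0⟩, hga0⟩, hc20⟩, hdr0⟩, hab0⟩, hcc0⟩, hk⟩, hj⟩, hw0⟩,
    hnorm⟩, hbe⟩, hga⟩, hlnE⟩, hlnO⟩, hcr⟩ := h1
  have u2 : IsUnit (2 : ℤ_[p]) := isUnit_two hp
  -- the square root
  obtain ⟨V, hV, hV0⟩ := hS p hp (S p D.q) (by rw [S_cc, hq0]; simp)
  -- inverses
  have ual : IsUnit (S p D.al) := isUnit_of_cc (by rw [S_cc, hal0]; simpa using u2)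
  have uc2 : IsUnit (S p D.c2) := isUnit_of_cc (by rw [S_cc, hc20]; simpa using u2)
  have udr : IsUnit (S p D.dr) := isUnit_of_cc (by rw [S_cc, hdr0]; simp)
  have uq : IsUnit (S p D.q) := isUnit_of_cc (by rw [S_cc, hq0]; simp)
  have uV : IsUnit V := isUnit_of_cc (by rw [hV0]; simp)
  have uZ : IsUnit (S p D.ar - S p D.br * V) := isUnit_of_cc (by
    rw [map_sub, map_mul, S_cc, S_cc, hV0, mul_one, ← Int.cast_sub, hab0]; simpa using u2)
  obtain ⟨ali, hali⟩ := ual.exists_right_inv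
  obtain ⟨c2i, hc2i⟩ := uc2.exists_right_inv
  obtain ⟨dri, hdri⟩ := udr.exists_right_inv
  obtain ⟨qi, hqi⟩ := uq.exists_right_inv
  obtain ⟨Vi, hVi⟩ := uV.exists_right_inv
  obtain ⟨Zi, hZi⟩ := uZ.exists_right_inv
  -- abbreviations
  set q := S p D.q with hqdef
  set al := S p D.al with haldef
  set c0 := S p D.c0 with hc0def
  set c1 := S p D.c1 with hc1def
  set c2 := S p D.c2 with hc2def
  set ln := S p D.ln with hlndef
  set ar := S p D.ar with hardef
  set br := S p D.br with hbrdef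
  set dr := S p D.dr with hdrdef
  set t : ℤ_[p]⟦X⟧ := PowerSeries.X with htdef
  set x0 := S p D.x0 with hx0def
  set x1 := S p D.x1 with hx1def
  have hx0e : x0 = t ^ D.k * (2 * (dr * ar)) := by
    rw [hx0def, Dat.x0, S_sh, S_sm, S_mul]; push_cast; ring
  have hx1e : x1 = -(t ^ D.k * (2 * (dr * br))) := by
    rw [hx1def, Dat.x1, S_sh, S_sm, S_mul]; push_cast; ring
  -- power series identities
  have i_norm : c0 ^ 2 - q * c1 ^ 2 = (D.N : ℤ_[p]⟦X⟧) ^ 2 * al ^ 2 := by
    have := S_eqv (p := p) hnorm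
    simp only [S_sub, S_mul, S_sm] at this
    push_cast at this
    linear_combination this
  have i_lnE : al * (2 * (q * th c1) + c1 * th q) = 2 * (ln * c0) + 2 * (q * (c1 * th al)) := by
    have := S_eqv (p := p) hlnE
    simp only [S_add, S_mul, S_sm, S_thl] at this
    push_cast at this
    linear_combination this
  have i_lnO : 2 * (al * th c0) - 2 * (c0 * th al) = 2 * (ln * c1) := by
    have := S_eqv (p := p) hlnO
    simp only [S_sub, S_mul, S_sm, S_thl] at this
    push_cast at this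
    linear_combination this
  have i_cr : t ^ D.j * al ^ 2 = t ^ D.k * (ar ^ 2 - q * br ^ 2) := by
    have := S_eqv (p := p) hcr
    simp only [S_sub, S_mul, S_sh] at this
    linear_combination this
  -- theta of V and others
  have hthV : 2 * V * th V = th q := by
    rw [← hV, th_sq]
  have hthali := th_inv hali
  have hthZi := th_inv hZi
  have hthc2i := th_inv hc2i
  have hthqi := th_inv hqi
  set Z := ar - br * V with hZdef
  have hthZ : th Z = th ar - th br * V - br * th V := by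
    rw [hZdef, map_sub, th_mul']; ring
  -- the functions
  set x := (x0 + x1 * V) * ali ^ 2 with hxdef
  set y := (x0 - x1 * V) * ali ^ 2 with hydef
  set M := (c0 + c1 * V) * ali with hMdef
  set M' := (c0 - c1 * V) * ali with hM'def
  set ψ := (D.w : ℤ_[p]⟦X⟧) * al * qi * c2i with hψdef
  set lam := ln * ali * Vi with hlamdef
  set lps := th al * ali - th q * qi - th c2 * c2i with hlpsdef
  set ry := (D.j : ℤ_[p]⟦X⟧) + th dr * dri - th Z * Zi with hrydef
  set rx := (D.k : ℤ_[p]⟦X⟧) + th dr * dri + th Z * Zi - 2 * th al * ali with hrxdef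
  have hxe : x = t ^ D.k * 2 * dr * Z * ali ^ 2 := by
    rw [hxdef, hx0e, hx1e, hZdef]; ring
  have hye : y * Z = 2 * t ^ D.j * dr := by
    have e1 : (x0 - x1 * V) * Z = 2 * dr * (t ^ D.k * (ar ^ 2 - q * br ^ 2)) := by
      rw [hx0e, hx1e, hZdef]
      linear_combination (-(2 * dr * t ^ D.k * br ^ 2)) * hV
    rw [hydef]
    linear_combination ali ^ 2 * e1 - (2 * dr * ali ^ 2) * i_cr +
      (2 * dr * t ^ D.j) * (al * ali + 1) * hali
  have hye' : y = 2 * t ^ D.j * dr * Zi := by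
    linear_combination Zi * hye - y * hZi
  set Zb := ar + br * V with hZbdef
  have hxZb : x * Zb = 2 * t ^ D.j * dr := by
    rw [hxe, hZbdef, hZdef]
    linear_combination (-(2 * dr * ali ^ 2 * t ^ D.k * br ^ 2)) * hV - (2 * dr * ali ^ 2) * i_cr +
      (2 * dr * t ^ D.j) * (al * ali + 1) * hali
  have hdr_ne : dr ≠ 0 := udr.ne_zero
  have ht_ne : t ≠ 0 := PowerSeries.X_ne_zero
  have h2_ne : (2 : ℤ_[p]⟦X⟧) ≠ 0 := by
    have := (u2.map (PowerSeries.C (R := ℤ_[p]))).ne_zero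
    rwa [map_ofNat] at this
  have hrhs_ne : 2 * t ^ D.j * dr ≠ 0 := mul_ne_zero (mul_ne_zero h2_ne (pow_ne_zero _ ht_ne)) hdr_ne
  have hx_ne : x ≠ 0 := by
    intro h; rw [h, zero_mul] at hxZb; exact hrhs_ne hxZb.symm
  have hZb_ne : Zb ≠ 0 := by
    intro h; rw [h, mul_zero] at hxZb; exact hrhs_ne hxZb.symm
  have hy_ne : y ≠ 0 := by
    intro h; rw [h, zero_mul] at hye; exact hrhs_ne hye.symm
  have hq_ne : q ≠ 0 := uq.ne_zero
  have hc2_ne : c2 ≠ 0 := uc2.ne_zero
  have hal_ne : al ≠ 0 := ual.ne_zero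
  have hV_ne : V ≠ 0 := uV.ne_zero
  have hZ_ne : Z ≠ 0 := uZ.ne_zero
  -- theta of x, y
  have hthx : th x = rx * x := by
    rw [hxe]
    have e : th (t ^ D.k * 2 * dr * Z * ali ^ 2) = (D.k : ℤ_[p]⟦X⟧) * t ^ D.k * 2 * dr * Z * ali ^ 2
        + t ^ D.k * 2 * th dr * Z * ali ^ 2 + t ^ D.k * 2 * dr * th Z * ali ^ 2
        + t ^ D.k * 2 * dr * Z * (2 * ali * th ali) := by
      have e2 : th (2 : ℤ_[p]⟦X⟧) = 0 := by
        have := th_natCast (p := p) 2
        exact_mod_cast this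
      simp only [th_mul', th_X_pow, th_sq, e2, htdef]
      ring
    rw [e, hthali, hrxdef]
    linear_combination (-(t ^ D.k * 2 * th dr * Z * ali ^ 2)) * hdri
      - (t ^ D.k * 2 * dr * th Z * ali ^ 2) * hZi
  have hthy : th y = ry * y := by
    rw [hye']
    have e : th (2 * t ^ D.j * dr * Zi) = (D.j : ℤ_[p]⟦X⟧) * t ^ D.j * 2 * dr * Zi
        + t ^ D.j * 2 * th dr * Zi + t ^ D.j * 2 * dr * th Zi := by
      have e2 : th (2 : ℤ_[p]⟦X⟧) = 0 := by
        have := th_natCast (p := p) 2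
        exact_mod_cast this
      simp only [th_mul', th_X_pow, e2, htdef]
      ring
    rw [e, hthZi, hrydef]
    linear_combination (-(t ^ D.j * 2 * th dr * Zi)) * hdri
  have hthMM : th M = lam * M := by
    have e0 : al * M = c0 + c1 * V := by rw [hMdef]; linear_combination (c0 + c1 * V) * hali
    have e1 : th al * M + al * th M = th c0 + th c1 * V + c1 * th V := by
      rw [← th_mul', e0, map_add, th_mul']; ring
    have e2 : al * V * lam = ln := by
      rw [hlamdef]; linear_combination (ln * V * Vi) * hali + ln * hVi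
    have e3 : (2 * al ^ 2 * V) * th M = (2 * al ^ 2 * V) * (lam * M) := by
      have a1 : (2 * al ^ 2 * V) * th M
          = al * (2 * V * th c0 + 2 * q * th c1 + c1 * th q) - 2 * V * th al * (c0 + c1 * V) := by
        linear_combination (2 * al * V) * e1 - (2 * V * th al) * e0 + (al * c1) * hthV
          + (2 * al * th c1) * hV
      have a2 : (2 * al ^ 2 * V) * (lam * M) = 2 * ln * (c0 + c1 * V) := by
        linear_combination (2 * al * M) * e2 + (2 * ln) * e0
      rw [a1, a2]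
      linear_combination i_lnE + V * i_lnO - (2 * th al * c1) * hV
    exact mul_left_cancel₀ (mul_ne_zero (mul_ne_zero h2_ne (pow_ne_zero _ hal_ne)) hV_ne) e3
  have hψe : q * c2 * ψ = (D.w : ℤ_[p]⟦X⟧) * al := by
    rw [hψdef]
    linear_combination ((D.w : ℤ_[p]⟦X⟧) * al * c2 * c2i) * hqi + ((D.w : ℤ_[p]⟦X⟧) * al) * hc2i
  have hthψ : th ψ = lps * ψ := by
    have e1 : th ψ = (D.w : ℤ_[p]⟦X⟧) * (th al * qi * c2i + al * th qi * c2i + al * qi * th c2i) := by
      rw [hψdef]
      simp only [th_mul', th_natCast]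
      ring
    rw [e1, hthqi, hthc2i, hlpsdef, hψdef]
    linear_combination (-((D.w : ℤ_[p]⟦X⟧) * th al * qi * c2i)) * hali
  have hMM : M * M' = (D.N : ℤ_[p]⟦X⟧) ^ 2 := by
    rw [hMdef, hM'def]
    linear_combination ali ^ 2 * i_norm - ali ^ 2 * c1 ^ 2 * hV
      + ((D.N : ℤ_[p]⟦X⟧) ^ 2 * (al * ali + 1)) * hali
  -- theta of Zb and the differential equation
  have hxr : rx * Zb * dr = ((D.j : ℤ_[p]⟦X⟧) * dr + th dr) * Zb - dr * th Zb := by
    have e1 : th x * Zb + x * th Zb = 2 * ((D.j : ℤ_[p]⟦X⟧) * t ^ D.j * dr + t ^ D.j * th dr) := by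
      have e2 : th (2 : ℤ_[p]⟦X⟧) = 0 := by
        have := th_natCast (p := p) 2
        exact_mod_cast this
      rw [← th_mul', hxZb]
      simp only [th_mul', th_X_pow, e2, htdef]
      ring
    have e3 : x * (rx * Zb * dr) = x * (((D.j : ℤ_[p]⟦X⟧) * dr + th dr) * Zb - dr * th Zb) := by
      linear_combination dr * e1 - (dr * Zb) * hthx -
        ((D.j : ℤ_[p]⟦X⟧) * dr + th dr) * hxZb
    exact mul_left_cancel₀ hx_ne e3
  have hyr : ry * Z * dr = ((D.j : ℤ_[p]⟦X⟧) * dr + th dr) * Z - dr * th Z := by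
    have e1 : th y * Z + y * th Z = 2 * ((D.j : ℤ_[p]⟦X⟧) * t ^ D.j * dr + t ^ D.j * th dr) := by
      have e2 : th (2 : ℤ_[p]⟦X⟧) = 0 := by
        have := th_natCast (p := p) 2
        exact_mod_cast this
      rw [← th_mul', hye]
      simp only [th_mul', th_X_pow, e2, htdef]
      ring
    have e3 : y * (ry * Z * dr) = y * (((D.j : ℤ_[p]⟦X⟧) * dr + th dr) * Z - dr * th Z) := by
      linear_combination dr * e1 - (dr * Z) * hthy -
        ((D.j : ℤ_[p]⟦X⟧) * dr + th dr) * hye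
    exact mul_left_cancel₀ hy_ne e3
  simp only [Dat.ok2, Bool.and_eq_true] at h2
  have hE1 := S_eqv (p := p) h2.1
  have hE2 := S_eqv (p := p) h2.2
  have hEp : E V (D.pm (D.c2, []) (D.pm D.Y D.Y)) = E V D.rhs := by
    simp only [E, hE1, hE2]
  have hEm : E (-V) (D.pm (D.c2, []) (D.pm D.Y D.Y)) = E (-V) D.rhs := by
    simp only [E, hE1, hE2]
  have hV' : (-V) ^ 2 = q := by rw [neg_sq]; exact hV
  have hjd : S p D.jd = (D.j : ℤ_[p]⟦X⟧) * dr + th dr := by
    rw [Dat.jd, S_add, S_sm, S_thl]; push_cast; ring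
  have hYp : ∀ v : ℤ_[p]⟦X⟧, v ^ 2 = q → 2 * v * th v = th q → E v D.Y =
      2 * q * (((D.j : ℤ_[p]⟦X⟧) * dr + th dr) * (ar + br * v) - dr * th (ar + br * v)) := by
    intro v hv hv'
    simp only [E, Dat.Y, S_sub, S_sm, S_mul, S_add, S_thl, hjd, map_add, th_mul']
    push_cast
    linear_combination (dr * br * v) * hv' - (2 * dr * br * th v) * hv
  have hthV' : 2 * (-V) * th (-V) = th q := by
    rw [map_neg]; linear_combination hthV
  have hrhs : ∀ v : ℤ_[p]⟦X⟧, v ^ 2 = q → E v D.rhs = 4 * (D.w : ℤ_[p]⟦X⟧) * q * dr ^ 2 *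
      ((c0 + c1 * v) * ((ar + br * v - 64 * t ^ D.j * dr) * (ar + br * v + 8 * t ^ D.j * dr))) := by
    intro v hv
    rw [Dat.rhs, E_pm D v hv, E_pm D v hv, E_pm D v hv]
    simp only [E, S_sm, S_mul, S_sub, S_add, S_nil, S_sh]
    push_cast
    ring
  have hlhs : ∀ v : ℤ_[p]⟦X⟧, v ^ 2 = q → E v (D.pm (D.c2, []) (D.pm D.Y D.Y))
      = c2 * (E v D.Y) ^ 2 := by
    intro v hv
    rw [E_pm D v hv, E_pm D v hv]
    simp only [E, S_nil]
    ring
  have hrx2 : rx ^ 2 = ψ * M * DD x := by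
    rw [hlhs V hV, hYp V hV hthV, hrhs V hV, ← hZbdef, ← hxr] at hEp
    have e0 : al * M = c0 + c1 * V := by rw [hMdef]; linear_combination (c0 + c1 * V) * hali
    have e5 : DD x * Zb ^ 2 = (Zb - 64 * t ^ D.j * dr) * (Zb + 8 * t ^ D.j * dr) := by
      have : DD x = (1 - 32 * x) * (1 + 4 * x) := by unfold DD; ring
      rw [this]
      linear_combination (-(32 * Zb + 128 * x * Zb) + 4 * Zb - 256 * t ^ D.j * dr) * hxZb
    have e6 : (4 * q ^ 2 * c2 * al * (Zb * dr) ^ 2) * rx ^ 2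
        = (4 * q ^ 2 * c2 * al * (Zb * dr) ^ 2) * (ψ * M * DD x) := by
      have e7 : (4 * q ^ 2 * c2 * al * (Zb * dr) ^ 2) * (ψ * M * DD x)
          = 4 * q * (q * c2 * ψ) * (al * M) * dr ^ 2 * (DD x * Zb ^ 2) := by ring
      rw [e7, hψe, e0, e5]
      linear_combination al * hEp
    exact mul_left_cancel₀ (mul_ne_zero (mul_ne_zero (mul_ne_zero (mul_ne_zero
      (by
        have : (4 : ℤ_[p]⟦X⟧) = 2 * 2 := by norm_num
        rw [this]; exact mul_ne_zero h2_ne h2_ne) (pow_ne_zero _ hq_ne)) hc2_ne) hal_ne)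
      (pow_ne_zero _ (mul_ne_zero hZb_ne hdr_ne))) e6
  have hry2 : ry ^ 2 = ψ * M' * DD y := by
    have hZm : ar + br * (-V) = Z := by rw [hZdef]; ring
    rw [hlhs (-V) hV', hYp (-V) hV' hthV', hrhs (-V) hV', hZm, ← hyr] at hEm
    have e0 : al * M' = c0 + c1 * (-V) := by rw [hM'def]; linear_combination (c0 - c1 * V) * hali
    have e5 : DD y * Z ^ 2 = (Z - 64 * t ^ D.j * dr) * (Z + 8 * t ^ D.j * dr) := by
      have : DD y = (1 - 32 * y) * (1 + 4 * y) := by unfold DD; ring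
      rw [this]
      linear_combination (-(32 * Z + 128 * y * Z) + 4 * Z - 256 * t ^ D.j * dr) * hye
    have e6 : (4 * q ^ 2 * c2 * al * (Z * dr) ^ 2) * ry ^ 2
        = (4 * q ^ 2 * c2 * al * (Z * dr) ^ 2) * (ψ * M' * DD y) := by
      have e7 : (4 * q ^ 2 * c2 * al * (Z * dr) ^ 2) * (ψ * M' * DD y)
          = 4 * q * (q * c2 * ψ) * (al * M') * dr ^ 2 * (DD y * Z ^ 2) := by ring
      rw [e7, hψe, e0, e5]
      linear_combination al * hEm
    exact mul_left_cancel₀ (mul_ne_zero (mul_ne_zero (mul_ne_zero (mul_ne_zero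
      (by
        have : (4 : ℤ_[p]⟦X⟧) = 2 * 2 := by norm_num
        rw [this]; exact mul_ne_zero h2_ne h2_ne) (pow_ne_zero _ hq_ne)) hc2_ne) hal_ne)
      (pow_ne_zero _ (mul_ne_zero hZ_ne hdr_ne))) e6
  have hlnV : al * V * lam = ln := by
    rw [hlamdef]; linear_combination (ln * V * Vi) * hali + ln * hVi
  have hS3 : 2 * th lam - lps * lam
      = 8 * ψ * (M * x * (1 + 12 * x) - M' * y * (1 + 12 * y)) := by
    have hO := S_eqv (p := p) h3
    simp only [S_add, S_sub, S_mul, S_sm, S_thl] at hO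
    push_cast at hO
    have hOp : E V D.O = (c0 + c1 * V) * ((x0 + x1 * V) * (al ^ 2 + 12 * (x0 + x1 * V))) := by
      rw [Dat.O, E_pm D V hV, E_pm D V hV]
      simp only [E, S_add, S_mul, S_sm]
      push_cast
      ring
    have hOm : E (-V) D.O = (c0 - c1 * V) * ((x0 - x1 * V) * (al ^ 2 + 12 * (x0 - x1 * V))) := by
      rw [Dat.O, E_pm D (-V) hV', E_pm D (-V) hV']
      simp only [E, S_add, S_mul, S_sm]
      push_cast
      ring
    have hOd : 2 * S p D.O.2 * V = E V D.O - E (-V) D.O := by simp only [E]; ring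
    rw [hOp, hOm] at hOd
    have eM : al * M = c0 + c1 * V := by rw [hMdef]; linear_combination (c0 + c1 * V) * hali
    have eM' : al * M' = c0 - c1 * V := by rw [hM'def]; linear_combination (c0 - c1 * V) * hali
    have ex : al ^ 2 * x = x0 + x1 * V := by
      rw [hxdef]; linear_combination ((x0 + x1 * V) * (al * ali + 1)) * hali
    have ey : al ^ 2 * y = x0 - x1 * V := by
      rw [hydef]; linear_combination ((x0 - x1 * V) * (al * ali + 1)) * hali
    rw [← eM, ← eM', ← ex, ← ey] at hOd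
    have hthlam : th al * V * lam + al * th V * lam + al * V * th lam = th ln := by
      rw [← hlnV]; simp only [th_mul']; ring
    have hlps' : lps * (al * q * c2) = th al * q * c2 - al * th q * c2 - al * q * th c2 := by
      rw [hlpsdef]
      linear_combination (th al * q * c2) * hali - (al * th q * c2) * hqi - (al * q * th c2) * hc2i
    -- multiply by `al^4 V q c2 * (al V)`
    have e1 : (2 * th lam - lps * lam) * (al ^ 2 * V ^ 2 * q * c2)
        = q * V * (2 * c2 * al * th ln - 3 * c2 * th al * ln + al * th c2 * ln) := by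
      linear_combination (2 * al * V * q * c2) * hthlam - (al ^ 2 * q * c2 * lam) * hthV
        - (al * V ^ 2 * lam) * hlps' + (-3 * q * V * c2 * th al + q * V * al * th c2) * hlnV
        + (al ^ 2 * lam * th q * c2) * hV
    have e2 : (al ^ 4 * V ^ 2 * q * c2) * (2 * th lam - lps * lam)
        = (al ^ 4 * V ^ 2 * q * c2) *
          (8 * ψ * (M * x * (1 + 12 * x) - M' * y * (1 + 12 * y))) := by
      linear_combination al ^ 2 * e1 + (q * V) * hO
        - (8 * al ^ 4 * V ^ 2 * (M * x * (1 + 12 * x) - M' * y * (1 + 12 * y))) * hψe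
        + (8 * (D.w : ℤ_[p]⟦X⟧) * V ^ 2) * hOd - (16 * (D.w : ℤ_[p]⟦X⟧) * S p D.O.2 * V) * hV
    exact mul_left_cancel₀ (mul_ne_zero (mul_ne_zero (mul_ne_zero (pow_ne_zero _ hal_ne)
      (pow_ne_zero _ hV_ne)) hq_ne) hc2_ne) e2
  have hxc : PowerSeries.constantCoeff x = 0 := by
    rw [hxe, htdef]
    simp [hk.ne']
  have hyc : PowerSeries.constantCoeff y = 0 := by
    rw [hye', htdef]
    simp [hj.ne']
  have hM0 : PowerSeries.constantCoeff M = 1 := by
    have e1 : PowerSeries.constantCoeff (al * ali) = 1 := by rw [hali]; simp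
    rw [map_mul, haldef, S_cc, hal0] at e1
    rw [hMdef, map_mul, map_add, map_mul, hV0, hc0def, hc1def, S_cc, S_cc, mul_one, ← Int.cast_add,
      hcc0]
    exact e1
  have hψ0 : IsUnit (PowerSeries.constantCoeff ψ) := by
    rw [hψdef, map_mul, map_mul, map_mul]
    have a1 : IsUnit (PowerSeries.constantCoeff (D.w : ℤ_[p]⟦X⟧)) := by
      rw [map_natCast]; exact isUnit_natCast hw
    have a2 : IsUnit (PowerSeries.constantCoeff al) := ual.map _
    have a3 : IsUnit (PowerSeries.constantCoeff qi) :=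
      (IsUnit.of_mul_eq_one_right _ hqi).map _
    have a4 : IsUnit (PowerSeries.constantCoeff c2i) :=
      (IsUnit.of_mul_eq_one_right _ hc2i).map _
    exact ((a1.mul a2).mul a3).mul a4
  refine ⟨{ N := D.N, w := D.w, q := P _ D.q, x0 := P _ D.x0, x1 := P _ D.x1, c0 := P _ D.c0,
            c1 := P _ D.c1, c2 := P _ D.c2, al := P _ D.al, be := P _ D.be, ga := P _ D.ga,
            ln := P _ D.ln, V := V, x := x, y := y, M := M, M' := M', ψ := ψ, lam := lam,
            lps := lps, rx := rx, ry := ry, hN := hN, hw := hw, hV := hV, hV0 := hV0,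
            hxc := hxc, hyc := hyc, hxne := hx_ne, hyne := hy_ne, hM0 := hM0,
            hal0 := ?_, hbe0 := ?_, hga0 := ?_, hψ0 := hψ0, hMM := hMM, hx := ?_, hy := ?_,
            hM := ?_, hM' := ?_, hψ := hψe, hrx := hthx, hry := hthy, hrx2 := hrx2, hry2 := hry2,
            hlam := hthMM, hlps := hthψ, hS := hS3, hln := hlnV, hlnE := ?_, hnorm := ?_,
            hbe := ?_, hga := ?_ }, rfl, rfl, rfl, rfl, rfl, rfl, rfl, rfl, rfl, rfl, rfl, rfl⟩
  · rw [P_coeff_zero, hal0]; simpa using u2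
  · rw [P_coeff_zero, P_coeff_zero, hal0, hbe0]
  · rw [P_coeff_zero, P_coeff_zero, hal0, hga0]
  · change al ^ 2 * x = x0 + x1 * V
    rw [hxdef]; linear_combination ((x0 + x1 * V) * (al * ali + 1)) * hali
  · change al ^ 2 * y = x0 - x1 * V
    rw [hydef]; linear_combination ((x0 - x1 * V) * (al * ali + 1)) * hali
  · change al * M = c0 + c1 * V
    rw [hMdef]; linear_combination (c0 + c1 * V) * hali
  · change al * M' = c0 - c1 * V
    rw [hM'def]; linear_combination (c0 - c1 * V) * hali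
  · have := P_eqv (R := ℤ_[p]) hlnE
    simp only [P_add, P_mul, P_sm, P_thl] at this
    push_cast at this
    linear_combination this
  · have := P_eqv (R := ℤ_[p]) hnorm
    simp only [P_sub, P_mul, P_sm] at this
    push_cast at this
    linear_combination this
  · have := P_eqv (R := ℤ_[p]) hbe
    simp only [P_add, P_sub, P_mul, P_sm] at this
    push_cast at this
    linear_combination this
  · have := P_eqv (R := ℤ_[p]) hga
    simp only [P_add, P_sub, P_mul, P_sm] at this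
    push_cast at this
    linear_combination this

end

end Pool.Agent.Helper43.Fr
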