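import Pool.Agent.Helper43.Fr.Goals

/-!
# Computing with integer polynomials given as lists of coefficients
-/

namespace Pool.Agent.Helper43.Fr.PL

open scoped PowerSeries Polynomial

/-- addition -/
def add : List ℤ → List ℤ → List ℤ
  | [], m => m
  | a :: l, [] => a :: l
  | a :: l, b :: m => (a + b) :: add l m

/-- scalar multiplication -/
def sm (c : ℤ) : List ℤ → List ℤ
  | [] => []
  | a :: l => (c * a) :: sm c l

/-- multiplication -/
def mul : List ℤ → List ℤ → List ℤ
  | [], _ => []
  | a :: l, m => add (sm a m) (0 :: mul l m)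

/-- `X d/dX` -/
def thl : List ℤ → List ℤ
  | [] => []
  | _ :: l => 0 :: add l (thl l)

/-- derivative -/
def der : List ℤ → List ℤ
  | [] => []
  | _ :: l => add l (0 :: der l)

/-- is it the zero polynomial -/
def isz : List ℤ → Bool
  | [] => true
  | a :: l => (a == 0) && isz l

/-- subtraction -/
def sub (l m : List ℤ) : List ℤ := add l (sm (-1) m)

/-- equality as polynomials -/
def eqv (l m : List ℤ) : Bool := isz (sub l m)

/-- multiplication by `X^k` -/
def sh : ℕ → List ℤ → List ℤ
  | 0, l => l
  | k + 1, l => 0 :: sh k l

/-- first coefficient -/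
def hd : List ℤ → ℤ
  | [] => 0
  | a :: _ => a

/-- homogeneous value `∑ l_i T^(len l - i)` -/
def hv (T : ℤ) : List ℤ → ℤ
  | [] => 0
  | a :: l => a * T ^ (l.length + 1) + hv T l

noncomputable section

variable (R : Type*) [CommRing R]

/-- the polynomial with given coefficients -/
def P : List ℤ → R[X]
  | [] => 0
  | a :: l => Polynomial.C (a : R) + Polynomial.X * P l

variable {R}

@[simp] lemma P_nil : P R [] = 0 := rfl
@[simp] lemma P_cons (a : ℤ) (l : List ℤ) :
    P R (a :: l) = Polynomial.C (a : R) + Polynomial.X * P R l := rfl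

lemma P_add (l m : List ℤ) : P R (add l m) = P R l + P R m := by
  induction l generalizing m with
  | nil => simp [add]
  | cons a l ih =>
    cases m with
    | nil => simp [add]
    | cons b m =>
      simp only [add, P_cons, ih, Int.cast_add, map_add]
      ring

lemma P_sm (c : ℤ) (l : List ℤ) : P R (sm c l) = (c : R[X]) * P R l := by
  induction l with
  | nil => simp [sm]
  | cons a l ih =>
    simp only [sm, P_cons, ih, Int.cast_mul, map_mul]
    simp only [← Polynomial.C_eq_intCast]
    ring

lemma P_mul (l m : List ℤ) : P R (mul l m) = P R l * P R m := by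
  induction l with
  | nil => simp [mul]
  | cons a l ih =>
    simp only [mul, P_add, P_cons, ih, P_sm, Int.cast_zero, map_zero]
    simp only [← Polynomial.C_eq_intCast]
    ring

lemma P_sub (l m : List ℤ) : P R (sub l m) = P R l - P R m := by
  simp [sub, P_add, P_sm]; ring

lemma P_sh (k : ℕ) (l : List ℤ) : P R (sh k l) = Polynomial.X ^ k * P R l := by
  induction k with
  | zero => simp [sh]
  | succ k ih => simp only [sh, P_cons, ih, Int.cast_zero, map_zero]; ring

lemma thP_C (a : R) : thP (Polynomial.C a) = 0 := by
  simp [thP]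

lemma thP_X_mul (f : R[X]) : thP (Polynomial.X * f) = Polynomial.X * f + Polynomial.X * thP f := by
  simp [thP]; ring

lemma P_thl (l : List ℤ) : P R (thl l) = thP (P R l) := by
  induction l with
  | nil => simp [thl]
  | cons a l ih =>
    simp only [thl, P_cons, P_add, ih, Int.cast_zero, map_zero, map_add]
    rw [thP_C, thP_X_mul]
    ring

lemma P_der (l : List ℤ) : P R (der l) = Polynomial.derivative (P R l) := by
  induction l with
  | nil => simp [der]
  | cons a l ih =>
    simp only [der, P_cons, P_add, ih, Int.cast_zero, map_zero, map_add]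
    simp [Polynomial.derivative_mul]

lemma P_isz {l : List ℤ} (h : isz l = true) : P R l = 0 := by
  induction l with
  | nil => simp
  | cons a l ih =>
    simp only [isz, Bool.and_eq_true, beq_iff_eq] at h
    simp [h.1, ih h.2]

lemma P_eqv {l m : List ℤ} (h : eqv l m = true) : P R l = P R m := by
  have := P_isz (R := R) h
  rw [P_sub] at this
  exact sub_eq_zero.1 this

lemma P_coeff_zero (l : List ℤ) : (P R l).coeff 0 = (hd l : R) := by
  cases l <;> simp [hd]

lemma P_map {S : Type*} [CommRing S] (f : R →+* S) (l : List ℤ) : (P R l).map f = P S l := by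
  induction l with
  | nil => simp
  | cons a l ih => simp [ih]

lemma P_eval₂ {S : Type*} [CommRing S] (f : R →+* S) (t : S) (l : List ℤ) :
    (P R l).eval₂ f t = (P S l).eval t := by
  rw [← P_map f, Polynomial.eval_map]

/-- `T^(len l) f(t) = hv T l` for `t T = 1` -/
lemma P_eval (T : ℤ) (t : R) (h : (T : R) * t = 1) (l : List ℤ) :
    (T : R) ^ l.length * (P R l).eval t = (hv T l : R) := by
  induction l with
  | nil => simp [hv]
  | cons a l ih =>
    simp only [List.length_cons, P_cons, Polynomial.eval_add, Polynomial.eval_C,
      Polynomial.eval_mul, Polynomial.eval_X, hv, Int.cast_add, Int.cast_mul, Int.cast_pow, ← ih]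
    have : (T : R) ^ (l.length + 1) * (t * (P R l).eval t) =
        ((T : R) * t) * ((T : R) ^ l.length * (P R l).eval t) := by ring
    rw [mul_add, this, h]
    ring

end

end Pool.Agent.Helper43.Fr.PL
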