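import Pool.Agent.Helper43.Fr.Main

/-!
# The seven supercongruences in integer form, for every allowed prime
-/

namespace Pool.Agent.Helper43.Fr

open PL
open scoped PowerSeries Polynomial NumberTheorySymbols

variable {p : ℕ} [Fact p.Prime]

/-- `p` does not divide an integer all of whose prime factors divide `m` -/
lemma nd {z : ℤ} (m : ℕ) (h : ¬ p ∣ m) (hz : z ∣ (m : ℤ) ^ 30) : ¬ (p : ℤ) ∣ z :=
  not_dvd_of_dvd_pow 30 hz h

lemma nd6 (hp : 3 < p) : ¬ p ∣ 6 := by
  intro h
  rcases (Nat.Prime.dvd_mul (Fact.out : p.Prime)).1 (show p ∣ 2 * 3 from h) with h | h <;>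
  · have := Nat.le_of_dvd (by norm_num) h
    omega

lemma nd_mul {m n : ℕ} (hm : ¬ p ∣ m) (hn : ¬ p ∣ n) : ¬ p ∣ m * n := by
  intro h
  rcases (Nat.Prime.dvd_mul (Fact.out : p.Prime)).1 h with h | h
  · exact hm h
  · exact hn h

lemma nd_prime {q : ℕ} (hq : q.Prime) (h : p ≠ q) : ¬ p ∣ q := by
  intro hd
  exact h ((Nat.prime_dvd_prime_iff_eq Fact.out hq).1 hd)

lemma gt5 (hp : 3 < p) (h5 : p ≠ 5) : 5 < p := by
  have h4 : p ≠ 4 := by
    rintro rfl
    exact absurd (Fact.out : Nat.Prime 4) (by norm_num)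
  omega

lemma gt7 (hp : 5 < p) (h7 : p ≠ 7) : 7 < p := by
  have h6 : p ≠ 6 := by
    rintro rfl
    exact absurd (Fact.out : Nat.Prime 6) (by norm_num)
  omega

theorem c50 (hp : 3 < p) (h5 : p ≠ 5) : IntC p 50 9 2 (2 * legendreSym p (-1) * p) := by
  have nn : ¬ p ∣ 30 := nd_mul (m := 6) (n := 5) (nd6 hp) (nd_prime (by norm_num) h5)
  have g := gen hp D2 Q50 Q50_ok D2_ok1 D2_ok2 D2_ok3
    (by exact_mod_cast nd (p := p) (z := 2) 30 nn (by norm_num))
    (by exact_mod_cast nd (p := p) (z := 4) 30 nn (by norm_num))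
    (nd 30 nn (by decide +kernel)) (nd 30 nn (by decide +kernel)) (nd 30 nn (by decide +kernel))
    (nd 30 nn (by decide +kernel)) (nd 30 nn (by decide +kernel)) (nd 30 nn (by decide +kernel))
    (nd 30 nn (by decide +kernel)) (nd 30 nn (by decide +kernel))
  have hs : legendreSym p (Q50.M * (Q50.n * Q50.d)) * Q50.s1 ^ e1 p * Q50.s2 ^ e2 p
      = legendreSym p (-1) := by
    have h1 := C32 gNOD gSQRT (p := p) (gt5 hp h5)
    have h2 := leg_sq (p := p) (a := -1) 30 (nd 30 nn (by norm_num))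
    simp only [Q50, one_pow, mul_one, h1]
    rw [← h2, ← legendreSym.mul]
    norm_num
  rw [hs] at g
  exact g

theorem c96 (hp : 3 < p) : IntC p 96 5 1 (legendreSym p (-2) * p) := by
  by_cases h5 : p = 5
  · subst h5
    have : legendreSym 5 (-2) = -1 := by norm_num
    rw [this]
    decide +kernel
  have nn : ¬ p ∣ 30 := nd_mul (m := 6) (n := 5) (nd6 hp) (nd_prime (by norm_num) h5)
  have g := gen hp D3 Q96 Q96_ok D3_ok1 D3_ok2 D3_ok3
    (by exact_mod_cast nd (p := p) (z := 3) 30 nn (by norm_num))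
    (by exact_mod_cast nd (p := p) (z := 1) 30 nn (by norm_num))
    (nd 30 nn (by decide +kernel)) (nd 30 nn (by decide +kernel)) (nd 30 nn (by decide +kernel))
    (nd 30 nn (by decide +kernel)) (nd 30 nn (by decide +kernel)) (nd 30 nn (by decide +kernel))
    (nd 30 nn (by decide +kernel)) (nd 30 nn (by decide +kernel))
  have hs : legendreSym p (Q96.M * (Q96.n * Q96.d)) * Q96.s1 ^ e1 p * Q96.s2 ^ e2 p
      = legendreSym p (-2) := by
    have h1 := C32 gNOD gSQRT (p := p) (gt5 hp h5)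
    have h2 := leg_sq (p := p) (a := -2) 6 (nd 30 nn (by norm_num))
    simp only [Q96, one_pow, mul_one, h1]
    rw [← h2, ← legendreSym.mul]
    norm_num
  rw [hs] at g
  have e : Q96.b * legendreSym p (-2) * (p : ℤ) = legendreSym p (-2) * p := by
    simp [Q96]
  rw [e] at g
  exact g

theorem c320 (hp : 3 < p) (h5 : p ≠ 5) : IntC p 320 6 1 (jacobiSym p 15 * p) := by
  have nn : ¬ p ∣ 30 := nd_mul (m := 6) (n := 5) (nd6 hp) (nd_prime (by norm_num) h5)
  have g := gen hp D5 Q320 Q320_ok D5_ok1 D5_ok2 D5_ok3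
    (by exact_mod_cast nd (p := p) (z := 5) 30 nn (by norm_num))
    (by exact_mod_cast nd (p := p) (z := 1) 30 nn (by norm_num))
    (nd 30 nn (by decide +kernel)) (nd 30 nn (by decide +kernel)) (nd 30 nn (by decide +kernel))
    (nd 30 nn (by decide +kernel)) (nd 30 nn (by decide +kernel)) (nd 30 nn (by decide +kernel))
    (nd 30 nn (by decide +kernel)) (nd 30 nn (by decide +kernel))
  have hs : legendreSym p (Q320.M * (Q320.n * Q320.d)) * Q320.s1 ^ e1 p * Q320.s2 ^ e2 p
      = jacobiSym p 15 := by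
    have h1 := C32 gNOD gSQRT (p := p) (gt5 hp h5)
    have h2 := leg_sq (p := p) (a := -15) 30 (nd 30 nn (by norm_num))
    have h3 := leg_neg_three_mod_four (p := p) hp (n := 15) (by norm_num)
    simp only [Q320, one_pow, mul_one, h1]
    rw [← h3, ← legendreSym.mul]
    push_cast
    rw [← h2]
    norm_num
  rw [hs] at g
  have e : Q320.b * jacobiSym p 15 * (p : ℤ) = jacobiSym p 15 * p := by
    simp [Q320]
  rw [e] at g
  exact g

theorem c16 (hp : 3 < p) : IntC p 16 5 2 (2 * p) := by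
  by_cases h5 : p = 5
  · subst h5
    decide +kernel
  have nn : ¬ p ∣ 30 := nd_mul (m := 6) (n := 5) (nd6 hp) (nd_prime (by norm_num) h5)
  have g := gen hp D5 Q16 Q16_ok D5_ok1 D5_ok2 D5_ok3
    (by exact_mod_cast nd (p := p) (z := 5) 30 nn (by norm_num))
    (by exact_mod_cast nd (p := p) (z := 1) 30 nn (by norm_num))
    (nd 30 nn (by decide +kernel)) (nd 30 nn (by decide +kernel)) (nd 30 nn (by decide +kernel))
    (nd 30 nn (by decide +kernel)) (nd 30 nn (by decide +kernel)) (nd 30 nn (by decide +kernel))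
    (nd 30 nn (by decide +kernel)) (nd 30 nn (by decide +kernel))
  have hs : legendreSym p (Q16.M * (Q16.n * Q16.d)) * Q16.s1 ^ e1 p * Q16.s2 ^ e2 p = 1 := by
    have h2 := leg_sq (p := p) (a := 1) 5 (nd 30 nn (by norm_num))
    have h3 : ((-5 : ℤ)) * (-1 * 5) = 1 * 5 ^ 2 := by norm_num
    simp only [Q16, one_pow, mul_one, h3]
    rw [h2, legendreSym.at_one]
  rw [hs] at g
  have e : Q16.b * 1 * (p : ℤ) = 2 * p := by
    simp [Q16]
  rw [e] at g
  exact g

theorem c5 (hp : 3 < p) (h5 : p ≠ 5) : IntC p 5 9 4 (4 * jacobiSym p 5 * p) := by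
  by_cases h7 : p = 7
  · subst h7
    have : jacobiSym (7 : ℕ) 5 = -1 := by norm_num
    rw [this]
    decide +kernel
  have nn : ¬ p ∣ 30 := nd_mul (m := 6) (n := 5) (nd6 hp) (nd_prime (by norm_num) h5)
  have g := gen hp D5 Q5 Q5_ok D5_ok1 D5_ok2 D5_ok3
    (by exact_mod_cast nd (p := p) (z := 5) 30 nn (by norm_num))
    (by exact_mod_cast nd (p := p) (z := 1) 30 nn (by norm_num))
    (nd 30 nn (by decide +kernel)) (nd 30 nn (by decide +kernel)) (nd 30 nn (by decide +kernel))
    (nd 30 nn (by decide +kernel)) (nd 30 nn (by decide +kernel)) (nd 30 nn (by decide +kernel))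
    (nd 30 nn (by decide +kernel)) (nd 30 nn (by decide +kernel))
  have hs : legendreSym p (Q5.M * (Q5.n * Q5.d)) * Q5.s1 ^ e1 p * Q5.s2 ^ e2 p
      = jacobiSym p 5 := by
    have h1 := C4 gNOD gSQRT (p := p) (gt7 (gt5 hp h5) h7)
    have h2 := leg_sq (p := p) (a := 5) 60 (nd 30 nn (by norm_num))
    have h3 := leg_one_mod_four (p := p) hp (n := 5) (by norm_num)
    simp only [Q5, one_pow, mul_one, h1]
    rw [← h3, ← legendreSym.mul]
    push_cast
    rw [← h2]
    norm_num
  rw [hs] at g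
  exact g

theorem c896 (hp : 3 < p) (h7 : p ≠ 7) : IntC p 896 90 13 (13 * jacobiSym p 7 * p) := by
  by_cases h5 : p = 5
  · subst h5
    have : jacobiSym (5 : ℕ) 7 = -1 := by norm_num
    rw [this]
    decide +kernel
  have nn : ¬ p ∣ 210 := nd_mul (m := 30) (n := 7)
    (nd_mul (m := 6) (n := 5) (nd6 hp) (nd_prime (by norm_num) h5)) (nd_prime (by norm_num) h7)
  have g := gen hp D7 Q896 Q896_ok D7_ok1 D7_ok2 D7_ok3
    (by exact_mod_cast nd (p := p) (z := 7) 210 nn (by norm_num))
    (by exact_mod_cast nd (p := p) (z := 1) 210 nn (by norm_num))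
    (nd 210 nn (by decide +kernel)) (nd 210 nn (by decide +kernel))
    (nd 210 nn (by decide +kernel)) (nd 210 nn (by decide +kernel))
    (nd 210 nn (by decide +kernel)) (nd 210 nn (by decide +kernel))
    (nd 210 nn (by decide +kernel)) (nd 210 nn (by decide +kernel))
  have hs : legendreSym p (Q896.M * (Q896.n * Q896.d)) * Q896.s1 ^ e1 p * Q896.s2 ^ e2 p
      = jacobiSym p 7 := by
    have h1 := C32 gNOD gSQRT (p := p) (gt5 hp h5)
    have h2 := leg_sq (p := p) (a := -7) 840 (nd 210 nn (by norm_num))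
    have h3 := leg_neg_three_mod_four (p := p) hp (n := 7) (by norm_num)
    simp only [Q896, one_pow, mul_one, h1]
    rw [← h3, ← legendreSym.mul]
    push_cast
    rw [← h2]
    norm_num
  rw [hs] at g
  exact g

theorem c10400 (hp : 3 < p) (h5 : p ≠ 5) (h13 : p ≠ 13) :
    IntC p 10400 102 11 (11 * jacobiSym p 39 * p) := by
  by_cases h17 : p = 17
  · subst h17
    have : jacobiSym (17 : ℕ) 39 = -1 := by norm_num
    rw [this]
    decide +kernel
  have nn : ¬ p ∣ 6630 := nd_mul (m := 390) (n := 17) (nd_mul (m := 30) (n := 13)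
    (nd_mul (m := 6) (n := 5) (nd6 hp) (nd_prime (by norm_num) h5))
    (nd_prime (by norm_num) h13)) (nd_prime (by norm_num) h17)
  have g := gen hp D13 Q10400 Q10400_ok D13_ok1 D13_ok2 D13_ok3
    (by exact_mod_cast nd (p := p) (z := 13) 6630 nn (by norm_num))
    (by exact_mod_cast nd (p := p) (z := 1) 6630 nn (by norm_num))
    (nd 6630 nn (by decide +kernel)) (nd 6630 nn (by decide +kernel))
    (nd 6630 nn (by decide +kernel)) (nd 6630 nn (by decide +kernel))
    (nd 6630 nn (by decide +kernel)) (nd 6630 nn (by decide +kernel))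
    (nd 6630 nn (by decide +kernel)) (nd 6630 nn (by decide +kernel))
  have hs : legendreSym p (Q10400.M * (Q10400.n * Q10400.d)) * Q10400.s1 ^ e1 p
      * Q10400.s2 ^ e2 p = jacobiSym p 39 := by
    have h1 := C32 gNOD gSQRT (p := p) (gt5 hp h5)
    have h2 := leg_sq (p := p) (a := -39) 260 (nd 6630 nn (by norm_num))
    have h3 := leg_neg_three_mod_four (p := p) hp (n := 39) (by norm_num)
    simp only [Q10400, one_pow, mul_one, h1]
    rw [← h3, ← legendreSym.mul]
    push_cast
    rw [← h2]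
    norm_num
  rw [hs] at g
  exact g

end Pool.Agent.Helper43.Fr
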