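import Pool.Agent.Helper43.Fr.Fin

/-!
# Signs: the values `F_1(1/32)`, `F_1(-1/4)` mod `p`, quadratic symbols
-/

namespace Pool.Agent.Helper43.Fr

open PL
open scoped PowerSeries Polynomial NumberTheorySymbols

noncomputable section

variable {p : ℕ} [Fact p.Prime]

lemma odd_p (hp : 3 < p) : p % 2 = 1 := by
  have := (Fact.out : p.Prime).eq_two_or_odd
  omega

lemma ne_zero_of_not_dvd {z : ℤ} (h : ¬ (p : ℤ) ∣ z) : (z : ZMod p) ≠ 0 := by
  rw [Ne, ZMod.intCast_zmod_eq_zero_iff_dvd]; exact h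

/-- `p` does not divide an integer composed of small primes -/
lemma not_dvd_of_dvd_pow {z : ℤ} {m : ℕ} (k : ℕ) (hz : z ∣ (m : ℤ) ^ k) (h : ¬ p ∣ m) :
    ¬ (p : ℤ) ∣ z := by
  intro h1
  apply h
  have h2 : (p : ℤ) ∣ (m : ℤ) ^ k := h1.trans hz
  have h3 : p ∣ m ^ k := by exact_mod_cast h2
  exact (Fact.out : p.Prime).dvd_of_dvd_pow h3

lemma leg_cast (hp : 3 < p) (a : ℤ) :
    (legendreSym p a : ZMod p) = (a : ZMod p) ^ ((p - 1) / 2) := by
  rw [legendreSym.eq_pow]
  congr 1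
  have := odd_p (p := p) hp
  omega

lemma leg_sq {a : ℤ} (b : ℤ) (h : ¬ (p : ℤ) ∣ b) : legendreSym p (a * b ^ 2) = legendreSym p a := by
  rw [legendreSym.mul, legendreSym.sq_one' p (ne_zero_of_not_dvd h), mul_one]

lemma ev_mul_pow {T : ℤ} {t : ZMod p} (hT : (T : ZMod p) * t = 1) (l : List ℤ) :
    (T : ZMod p) ^ l.length * ev t (P ℤ_[p] l) = (hv T l : ZMod p) := by
  rw [ev, P_eval₂, P_eval T t hT]

lemma ev_eq {T : ℤ} {t : ZMod p} (hT : (T : ZMod p) * t = 1) (l : List ℤ) (v : ℤ)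
    (h : hv T l = v * T ^ l.length) : ev t (P ℤ_[p] l) = (v : ZMod p) := by
  have h1 := ev_mul_pow hT l
  rw [h] at h1
  have h2 : t ^ l.length * (T : ZMod p) ^ l.length = 1 := by
    rw [← mul_pow, mul_comm t, hT, one_pow]
  push_cast at h1
  calc ev t (P ℤ_[p] l) = (t ^ l.length * (T : ZMod p) ^ l.length) * ev t (P ℤ_[p] l) := by
        rw [h2, one_mul]
    _ = t ^ l.length * ((T : ZMod p) ^ l.length * ev t (P ℤ_[p] l)) := by ring
    _ = t ^ l.length * ((v : ZMod p) * (T : ZMod p) ^ l.length) := by rw [h1]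
    _ = (v : ZMod p) := by linear_combination (v : ZMod p) * h2

lemma natCast_ne (hp : 3 < p) {n : ℕ} (hn : n ∣ 6 ^ 10) : (n : ZMod p) ≠ 0 := by
  have := ne_zero_of_not_dvd (p := p) (z := n) (not_dvd_of_dvd_pow (m := 6) 10
    (by exact_mod_cast hn) (by
      intro h
      have h5 := (Nat.Prime.dvd_mul (Fact.out : p.Prime)).1 (show p ∣ 2 * 3 from h)
      rcases h5 with h5 | h5 <;> have := Nat.le_of_dvd (by norm_num) h5 <;> omega))
  exact_mod_cast this

/-- `F_1(1/32) = 0` mod `p` iff `-6` is not a square -/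
theorem C32 (gN : G_NOD) (gQ : G_SQRT) (hp : 5 < p) : ((-1 : ℤ)) ^ e1 p = legendreSym p (-6) := by
  have hp3 : 3 < p := by omega
  have h5 : ¬ p ∣ 5 := by
    intro h; have := Nat.le_of_dvd (by norm_num) h; omega
  obtain ⟨C, -, -, hq, hx0, hx1, hc0, hc1, -, hal, -, -, -⟩ := mkCur gQ hp3 D5 D5_ok1 D5_ok2 D5_ok3
    h5 (by intro h; have := Nat.le_of_dvd (by decide) h; simp [D5] at this; omega)
  have h2 : (2 : ZMod p) ≠ 0 := by exact_mod_cast natCast_ne (p := p) hp3 (n := 2) (by norm_num)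
  have h32 : (32 : ZMod p) ≠ 0 := by exact_mod_cast natCast_ne (p := p) hp3 (n := 32) (by norm_num)
  have n6 : (6 : ZMod p) ≠ 0 := by exact_mod_cast natCast_ne (p := p) hp3 (n := 6) (by norm_num)
  have n8 : (8 : ZMod p) ≠ 0 := by exact_mod_cast natCast_ne (p := p) hp3 (n := 8) (by norm_num)
  have n16 : (16 : ZMod p) ≠ 0 := by exact_mod_cast natCast_ne (p := p) hp3 (n := 16) (by norm_num)
  have hT : (((-2 : ℤ)) : ZMod p) * (-(2 : ZMod p)⁻¹) = 1 := by
    push_cast; field_simp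
  have vq : ev (-(2 : ZMod p)⁻¹) C.q = -6 := by
    rw [hq, ev_eq hT _ (-6) (by decide +kernel)]; norm_num
  have vx1 : ev (-(2 : ZMod p)⁻¹) C.x1 = 0 := by
    rw [hx1, ev_eq hT _ 0 (by decide +kernel)]; norm_num
  have val : ev (-(2 : ZMod p)⁻¹) C.al = 8 := by
    rw [hal, ev_eq hT _ 8 (by decide +kernel)]; norm_num
  have vx0 : ev (-(2 : ZMod p)⁻¹) C.x0 = 2 := by
    rw [hx0, ev_eq hT _ 2 (by decide +kernel)]; norm_num
  have vc0 : ev (-(2 : ZMod p)⁻¹) C.c0 = -8 := by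
    rw [hc0, ev_eq hT _ (-8) (by decide +kernel)]; norm_num
  have vc1 : ev (-(2 : ZMod p)⁻¹) C.c1 = -16 := by
    rw [hc1, ev_eq hT _ (-16) (by decide +kernel)]; norm_num
  have vdx1 : ev (-(2 : ZMod p)⁻¹) (Polynomial.derivative C.x1) = -6 := by
    rw [hx1, ← P_der, ev_eq hT _ (-6) (by decide +kernel)]; norm_num
  have vdx0 : ev (-(2 : ZMod p)⁻¹) (Polynomial.derivative C.x0) = -21 := by
    rw [hx0, ← P_der, ev_eq hT _ (-21) (by decide +kernel)]; norm_num
  have vdal : ev (-(2 : ZMod p)⁻¹) (Polynomial.derivative C.al) = -36 := by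
    rw [hal, ← P_der, ev_eq hT _ (-36) (by decide +kernel)]; norm_num
  have key := gN p hp3 C (-(2 : ZMod p)⁻¹) ((32 : ZMod p)⁻¹)
    (by unfold DD; field_simp; norm_num)
    (by rw [vq]; exact neg_ne_zero.2 n6) vx1 (by rw [val]; exact n8)
    (by rw [vc0]; exact neg_ne_zero.2 n8) (by rw [vc1]; exact neg_ne_zero.2 n16)
    (by rw [vdx1]; exact neg_ne_zero.2 n6)
    (by rw [vx0, val]; field_simp; norm_num)
    (by rw [vdx0, val, vdal, vc1, vdx1, vc0]; field_simp; norm_num)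
  rw [vq] at key
  have n6' : (((-6 : ℤ)) : ZMod p) ≠ 0 := by push_cast; exact neg_ne_zero.2 n6
  by_cases h : (F1 (ZMod p) p).eval ((32 : ZMod p)⁻¹) = 0
  · rw [e1, if_pos h, pow_one]
    have := key.1 h
    symm
    rw [legendreSym.eq_neg_one_iff]
    push_cast
    exact this
  · rw [e1, if_neg h, pow_zero]
    have h1 : IsSquare (-6 : ZMod p) := by
      by_contra h2
      exact h (key.2 h2)
    symm
    rw [legendreSym.eq_one_iff p n6']
    push_cast
    exact h1

/-- `F_1(-1/4) = 0` mod `p` iff `-48` is not a square -/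
theorem C4 (gN : G_NOD) (gQ : G_SQRT) (hp : 7 < p) : ((-1 : ℤ)) ^ e2 p = legendreSym p (-48) := by
  have hp3 : 3 < p := by omega
  have h7 : ¬ p ∣ 7 := by
    intro h; have := Nat.le_of_dvd (by norm_num) h; omega
  obtain ⟨C, -, -, hq, hx0, hx1, hc0, hc1, -, hal, -, -, -⟩ := mkCur gQ hp3 D7 D7_ok1 D7_ok2 D7_ok3
    h7 (by intro h; have := Nat.le_of_dvd (by decide) h; simp [D7] at this; omega)
  have n4 : (4 : ZMod p) ≠ 0 := by exact_mod_cast natCast_ne (p := p) hp3 (n := 4) (by norm_num)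
  have n48 : (48 : ZMod p) ≠ 0 := by exact_mod_cast natCast_ne (p := p) hp3 (n := 48) (by norm_num)
  have n12 : (12 : ZMod p) ≠ 0 := by exact_mod_cast natCast_ne (p := p) hp3 (n := 12) (by norm_num)
  have n8 : (8 : ZMod p) ≠ 0 := by exact_mod_cast natCast_ne (p := p) hp3 (n := 8) (by norm_num)
  have hT : (((1 : ℤ)) : ZMod p) * (1 : ZMod p) = 1 := by push_cast; ring
  have vq : ev (1 : ZMod p) C.q = -48 := by
    rw [hq, ev_eq hT _ (-48) (by decide +kernel)]; norm_num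
  have vx1 : ev (1 : ZMod p) C.x1 = 0 := by
    rw [hx1, ev_eq hT _ 0 (by decide +kernel)]; norm_num
  have val : ev (1 : ZMod p) C.al = 8 := by
    rw [hal, ev_eq hT _ 8 (by decide +kernel)]; norm_num
  have vx0 : ev (1 : ZMod p) C.x0 = -16 := by
    rw [hx0, ev_eq hT _ (-16) (by decide +kernel)]; norm_num
  have vc0 : ev (1 : ZMod p) C.c0 = 8 := by
    rw [hc0, ev_eq hT _ (8) (by decide +kernel)]; norm_num
  have vc1 : ev (1 : ZMod p) C.c1 = 8 := by
    rw [hc1, ev_eq hT _ (8) (by decide +kernel)]; norm_num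
  have vdx1 : ev (1 : ZMod p) (Polynomial.derivative C.x1) = -12 := by
    rw [hx1, ← P_der, ev_eq hT _ (-12) (by decide +kernel)]; norm_num
  have vdx0 : ev (1 : ZMod p) (Polynomial.derivative C.x0) = -116 := by
    rw [hx0, ← P_der, ev_eq hT _ (-116) (by decide +kernel)]; norm_num
  have vdal : ev (1 : ZMod p) (Polynomial.derivative C.al) = 26 := by
    rw [hal, ← P_der, ev_eq hT _ (26) (by decide +kernel)]; norm_num
  have key := gN p hp3 C (1 : ZMod p) (-(4 : ZMod p)⁻¹)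
    (by unfold DD; field_simp; norm_num)
    (by rw [vq]; exact neg_ne_zero.2 n48) vx1 (by rw [val]; exact n8)
    (by rw [vc0]; exact n8) (by rw [vc1]; exact n8)
    (by rw [vdx1]; exact neg_ne_zero.2 n12)
    (by rw [vx0, val]; field_simp; norm_num)
    (by rw [vdx0, val, vdal, vc1, vdx1, vc0]; field_simp; norm_num)
  rw [vq] at key
  have n48' : (((-48 : ℤ)) : ZMod p) ≠ 0 := by push_cast; exact neg_ne_zero.2 n48
  by_cases h : (F1 (ZMod p) p).eval (-(4 : ZMod p)⁻¹) = 0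
  · rw [e2, if_pos h, pow_one]
    have := key.1 h
    symm
    rw [legendreSym.eq_neg_one_iff]
    push_cast
    exact this
  · rw [e2, if_neg h, pow_zero]
    have h1 : IsSquare (-48 : ZMod p) := by
      by_contra h2
      exact h (key.2 h2)
    symm
    rw [legendreSym.eq_one_iff p n48']
    push_cast
    exact h1

/-! ## Reciprocity -/

lemma leg_one_mod_four (hp : 3 < p) {n : ℕ} (hn : n % 4 = 1) :
    legendreSym p n = jacobiSym p n := by
  rw [jacobiSym.legendreSym.to_jacobiSym]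
  exact jacobiSym.quadratic_reciprocity_one_mod_four hn (Nat.odd_iff.2 (odd_p hp))

lemma leg_neg_three_mod_four (hp : 3 < p) {n : ℕ} (hn : n % 4 = 3) :
    legendreSym p (-n) = jacobiSym p n := by
  rw [jacobiSym.legendreSym.to_jacobiSym]
  have hpo := Nat.odd_iff.2 (odd_p (p := p) hp)
  have hno : Odd n := Nat.odd_iff.2 (by omega)
  rw [jacobiSym.neg _ hpo]
  have h4 : p % 4 = 1 ∨ p % 4 = 3 := by have := odd_p (p := p) hp; omega
  rcases h4 with h4 | h4
  · rw [ZMod.χ₄_nat_one_mod_four h4, one_mul]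
    exact (jacobiSym.quadratic_reciprocity_one_mod_four h4 hno).symm
  · rw [ZMod.χ₄_nat_three_mod_four h4,
      jacobiSym.quadratic_reciprocity_three_mod_four hn h4]
    ring

end

end Pool.Agent.Helper43.Fr
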